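import Pool.Agent.D0H44.FW.Pr
import Pool.Agent.H343R2.ZCount
import Pool.Agent.Y857.VP.Rep0
import Pool.Agent.H448R2.GC.E

/-! The explicit formula for the window polynomials. -/

set_option autoImplicit false

namespace Pool.Agent.D0H44.FW

open Complex MeasureTheory Filter Topology
open Pool.Agent.H448R2.GC (cu Ps ker)
open Pool.Agent.Y857.VP (PP PP_ext)
open Pool.Agent.Y857.VP.VA (be)
open H370

/-- the coefficients -/
noncomputable def La (n : ℕ) : ℂ := (ArithmeticFunction.vonMangoldt n : ℂ)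

theorem La_le (n : ℕ) : ‖La n‖ ≤ ArithmeticFunction.vonMangoldt n := by
  unfold La
  rw [Complex.norm_real, Real.norm_eq_abs, abs_of_nonneg ArithmeticFunction.vonMangoldt_nonneg]

theorem KF_line (k : ℕ) (c p q u : ℝ) : KF k c p q ((1 : ℝ) + (u : ℂ) * I) =
    ker k c q 1 u - ker k c p 1 u := by
  apply KF_ker
  intro h
  have := congrArg Complex.re h
  simp at this

theorem KF_line_int (k : ℕ) (hk : 1 ≤ k) (c p q : ℝ) (hc : 0 < c) :
    Integrable (fun u : ℝ => KF k c p q ((1 : ℝ) + (u : ℂ) * I)) := by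
  simp only [KF_line]
  exact (Pool.Agent.H448R2.GC.ker_integrable k hk c q 1 hc one_ne_zero).sub
    (Pool.Agent.H448R2.GC.ker_integrable k hk c p 1 hc one_ne_zero)

theorem KF_mellin (k : ℕ) (hk : 1 ≤ k) (c p q : ℝ) (hc : 0 < c) (n : ℕ) (hn : 1 ≤ n) :
    ∫ u : ℝ, (n : ℂ) ^ (-((1 : ℝ) + (u : ℂ) * I)) * KF k c p q ((1 : ℝ) + (u : ℂ) * I) =
      2 * Real.pi * ((be k c p q (Real.log n) : ℝ) : ℂ) := by
  have h1 : ∀ u : ℝ, (n : ℂ) ^ (-((1 : ℝ) + (u : ℂ) * I)) * KF k c p q ((1 : ℝ) + (u : ℂ) * I) =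
      ker k c (q - Real.log n) 1 u - ker k c (p - Real.log n) 1 u := by
    intro u
    rw [KF_line, mul_sub, Pool.Agent.H448R2.GC.E.ker_shift k c q 1 u n hn,
      Pool.Agent.H448R2.GC.E.ker_shift k c p 1 u n hn]
  simp only [h1]
  rw [integral_sub (Pool.Agent.H448R2.GC.ker_integrable k hk c _ 1 hc one_ne_zero)
    (Pool.Agent.H448R2.GC.ker_integrable k hk c _ 1 hc one_ne_zero)]
  unfold Pool.Agent.Y857.VP.VA.be
  have h2 := Pool.Agent.H448R2.GC.cu_mellin k hk c hc 1 one_pos (Real.log n - q)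
  have h3 := Pool.Agent.H448R2.GC.cu_mellin k hk c hc 1 one_pos (Real.log n - p)
  have hpi : (Real.pi : ℂ) ≠ 0 := by exact_mod_cast Real.pi_ne_zero
  rw [neg_sub] at h2 h3
  rw [Complex.ofReal_sub, h2, h3]
  field_simp

theorem DDK_integral (k : ℕ) (hk : 1 ≤ k) (c p q : ℝ) (hc : 0 < c) (hpq : p ≤ q) (t : ℝ) :
    (∫ v : ℝ, DD La (⟨3 / 2, v⟩ : ℂ) * KF k c p q ((⟨3 / 2, v⟩ : ℂ) - 1 / 2 - (t : ℂ) * I)) =
      2 * Real.pi * (PP k c q ((1 / 2 : ℝ) + (t : ℂ) * I) - PP k c p ((1 / 2 : ℝ) + (t : ℂ) * I)) := by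
  set f : ℕ → ℝ → ℂ := fun n v => La n * (n : ℂ) ^ (-(⟨3 / 2, v⟩ : ℂ)) *
    KF k c p q ((⟨3 / 2, v⟩ : ℂ) - 1 / 2 - (t : ℂ) * I) with hf
  have harg : ∀ v : ℝ, (⟨3 / 2, v⟩ : ℂ) - 1 / 2 - (t : ℂ) * I = (1 : ℝ) + ((v - t : ℝ) : ℂ) * I := by
    intro v
    rw [mk_eq]
    push_cast
    ring
  have hKint : Integrable (fun v : ℝ => KF k c p q ((⟨3 / 2, v⟩ : ℂ) - 1 / 2 - (t : ℂ) * I)) := by
    simp only [harg]
    exact (KF_line_int k hk c p q hc).comp_sub_right t
  have hKc : Continuous (fun v : ℝ => KF k c p q ((⟨3 / 2, v⟩ : ℂ) - 1 / 2 - (t : ℂ) * I)) := by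
    simp only [harg]
    have := (KF_entire k c p q).continuous
    fun_prop
  have hnb : ∀ n v, ‖f n v‖ ≤ (ArithmeticFunction.vonMangoldt n * (n : ℝ) ^ (-(3 / 2 : ℝ))) *
      ‖KF k c p q ((⟨3 / 2, v⟩ : ℂ) - 1 / 2 - (t : ℂ) * I)‖ := by
    intro n v
    simp only [hf]
    rw [norm_mul]
    exact mul_le_mul_of_nonneg_right (norm_npow n v (La n) (La_le n)) (norm_nonneg _)
  have hcont : ∀ n, Continuous (f n) := by
    intro n
    rcases Nat.eq_zero_or_pos n with h | h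
    · have h0 : La n = 0 := by
        unfold La
        simp [h]
      simp only [hf, h0, zero_mul]
      exact continuous_const
    · simp only [hf]
      have : (fun v : ℝ => La n * (n : ℂ) ^ (-(⟨3 / 2, v⟩ : ℂ))) =
          fun v : ℝ => La n * cexp (-((Real.log n : ℝ) : ℂ) * ((3 / 2 : ℝ) + v * I)) := by
        funext v
        rw [term_eq n h, mk_eq]
      refine Continuous.mul ?_ hKc
      rw [this]
      fun_prop
  have hint : ∀ n, Integrable (f n) := fun n =>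
    (hKint.norm.const_mul (ArithmeticFunction.vonMangoldt n * (n : ℝ) ^ (-(3 / 2 : ℝ)))).mono'
      (hcont n).aestronglyMeasurable (Eventually.of_forall (hnb n))
  have hsum : Summable fun n => ∫ v, ‖f n v‖ := by
    refine Summable.of_nonneg_of_le (fun n => integral_nonneg fun v => norm_nonneg _) (fun n => ?_)
      (lam_summable.mul_right (∫ v : ℝ, ‖KF k c p q ((⟨3 / 2, v⟩ : ℂ) - 1 / 2 - (t : ℂ) * I)‖))
    rw [← integral_const_mul]
    exact integral_mono (hint n).norm (hKint.norm.const_mul _) (fun v => hnb n v)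
  have key := hasSum_integral_of_summable_integral_norm hint hsum
  have e1 : (fun v : ℝ => DD La (⟨3 / 2, v⟩ : ℂ) *
      KF k c p q ((⟨3 / 2, v⟩ : ℂ) - 1 / 2 - (t : ℂ) * I)) = fun v => ∑' n, f n v := by
    funext v
    simp only [hf, DD]
    rw [tsum_mul_right]
  rw [e1, ← key.tsum_eq]
  have e2 : ∀ n : ℕ, ∫ v, f n v = 2 * Real.pi * (La n * ((be k c p q (Real.log n) : ℝ) : ℂ) *
      (n : ℂ) ^ (-(((1 / 2 : ℝ) : ℂ) + (t : ℂ) * I))) := by
    intro n
    rcases Nat.eq_zero_or_pos n with h | h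
    · have h0 : La n = 0 := by
        unfold La
        simp [h]
      simp [hf, h0]
    · have hn0 : (n : ℂ) ≠ 0 := by exact_mod_cast h.ne'
      have e3 : ∀ v : ℝ, f n v = (La n * (n : ℂ) ^ (-(((1 / 2 : ℝ) : ℂ) + (t : ℂ) * I))) *
          ((n : ℂ) ^ (-((1 : ℝ) + ((v - t : ℝ) : ℂ) * I)) *
            KF k c p q ((1 : ℝ) + ((v - t : ℝ) : ℂ) * I)) := by
        intro v
        simp only [hf]
        rw [harg v]
        have e4 : (n : ℂ) ^ (-(⟨3 / 2, v⟩ : ℂ)) = (n : ℂ) ^ (-(((1 / 2 : ℝ) : ℂ) + (t : ℂ) * I)) *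
            (n : ℂ) ^ (-((1 : ℝ) + ((v - t : ℝ) : ℂ) * I)) := by
          rw [← Complex.cpow_add _ _ hn0]
          congr 1
          rw [mk_eq]
          push_cast
          ring
        rw [e4]
        ring
      simp only [e3]
      rw [integral_const_mul]
      have h5 := integral_sub_right_eq_self (μ := (volume : Measure ℝ))
        (fun u : ℝ => (n : ℂ) ^ (-((1 : ℝ) + (u : ℂ) * I)) * KF k c p q ((1 : ℝ) + (u : ℂ) * I)) t
      rw [h5, KF_mellin k hk c p q hc n h]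
      ring
  simp only [e2]
  rw [tsum_mul_left]
  congr 1
  have hle : ⌊Real.exp (p + k * c)⌋₊ ≤ ⌊Real.exp (q + k * c)⌋₊ :=
    Nat.floor_le_floor (Real.exp_le_exp.2 (by linarith))
  rw [PP_ext k c q hc _ le_rfl, PP_ext k c p hc _ hle, ← Finset.sum_sub_distrib]
  rw [tsum_eq_sum (s := Finset.Icc 1 ⌊Real.exp (q + k * c)⌋₊)]
  · apply Finset.sum_congr rfl
    intro n _
    unfold La Pool.Agent.Y857.VP.VA.be
    push_cast
    ring
  · intro n hn
    rcases Nat.eq_zero_or_pos n with h | h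
    · have h0 : La n = 0 := by
        unfold La
        simp [h]
      simp [h0]
    · rw [Finset.mem_Icc, not_and_or, not_le, not_le] at hn
      have h1 : ⌊Real.exp (q + k * c)⌋₊ < n := by omega
      have h2 : Real.exp (q + k * c) < n := (Nat.floor_lt (Real.exp_pos _).le).mp h1
      have h3 : q + k * c < Real.log n := (Real.lt_log_iff_exp_lt (by exact_mod_cast h)).mpr h2
      rw [Pool.Agent.Y857.VP.VA.be_zero_right hc hpq h3]
      simp

theorem KF_far (k : ℕ) (hk : 1 ≤ k) (c p q : ℝ) (hc : 1 ≤ c) (hp : 0 ≤ p) (hpq : p ≤ q) (Y : ℝ)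
    (hY : 1 ≤ Y) (z : ℂ) (h1 : |z.re| ≤ 1) (h2 : Y ≤ |z.im|) :
    ‖KF k c p q z‖ ≤ 4 * 3 ^ k * Real.exp (q + k * c) / Y ^ (k - 1) / (1 + z.im ^ 2) := by
  have hy1 : 1 ≤ |z.im| := hY.trans h2
  have hzn : |z.im| ≤ ‖z‖ := Complex.abs_im_le_norm z
  have hz1 : 1 ≤ ‖z‖ := hy1.trans hzn
  have hz : z ≠ 0 := by
    intro h
    rw [h] at hz1
    simp at hz1
    linarith
  have hkc : 0 ≤ q + k * c := by
    have : 0 ≤ (k : ℝ) * c := by positivity
    linarith
  have hE : Real.exp ((q + k * c) * max z.re 0 + p * min z.re 0) ≤ Real.exp (q + k * c) := by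
    apply Real.exp_le_exp.2
    have h3 : max z.re 0 ≤ 1 := max_le ((le_abs_self _).trans h1) zero_le_one
    have h4 : min z.re 0 ≤ 0 := min_le_right _ _
    nlinarith
  have hfrac : (3 / (1 + c * ‖z‖)) ^ k / ‖z‖ ≤ 3 ^ k * 2 / Y ^ (k - 1) / (1 + z.im ^ 2) := by
    have h3 : 3 / (1 + c * ‖z‖) ≤ 3 / |z.im| := by
      apply div_le_div_of_nonneg_left (by norm_num) (by linarith)
      nlinarith
    calc (3 / (1 + c * ‖z‖)) ^ k / ‖z‖ ≤ (3 / |z.im|) ^ k / |z.im| := by
          apply div_le_div₀ (by positivity) (pow_le_pow_left₀ (by positivity) h3 k) (by linarith) hzn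
      _ = 3 ^ k * (1 / |z.im| ^ (k - 1)) * (1 / |z.im| ^ 2) := by
          rw [div_pow]
          obtain ⟨j, rfl⟩ : ∃ j, k = j + 1 := ⟨k - 1, by omega⟩
          simp only [add_tsub_cancel_right]
          have : |z.im| ≠ 0 := by linarith
          rw [pow_succ |z.im| j]
          field_simp
      _ ≤ 3 ^ k * (1 / Y ^ (k - 1)) * (2 / (1 + z.im ^ 2)) := by
          apply mul_le_mul _ _ (by positivity) (by positivity)
          · apply mul_le_mul_of_nonneg_left _ (by positivity)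
            apply one_div_le_one_div_of_le (by positivity)
            exact pow_le_pow_left₀ (by linarith) h2 _
          · rw [sq_abs, div_le_div_iff₀ (by
              have := pow_le_pow_left₀ zero_le_one hy1 2
              rw [sq_abs] at this
              linarith) (by positivity)]
            have := pow_le_pow_left₀ zero_le_one hy1 2
            rw [sq_abs] at this
            linarith
      _ = _ := by ring
  calc ‖KF k c p q z‖ ≤ 2 * Real.exp ((q + k * c) * max z.re 0 + p * min z.re 0) *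
      (3 / (1 + c * ‖z‖)) ^ k / ‖z‖ := KF_bound k c p q (by linarith) hp hpq z hz
    _ = 2 * Real.exp ((q + k * c) * max z.re 0 + p * min z.re 0) *
      ((3 / (1 + c * ‖z‖)) ^ k / ‖z‖) := by ring
    _ ≤ 2 * Real.exp (q + k * c) * (3 ^ k * 2 / Y ^ (k - 1) / (1 + z.im ^ 2)) := by
        apply mul_le_mul _ hfrac (by positivity) (by positivity)
        exact mul_le_mul_of_nonneg_left hE (by norm_num)
    _ = _ := by ring

theorem KF_left (k : ℕ) (hk : 1 ≤ k) (c p q : ℝ) (hc : 1 ≤ c) (hp : 0 ≤ p) (hpq : p ≤ q)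
    (z : ℂ) (h1 : z.re = -1) :
    ‖KF k c p q z‖ ≤ 2 * 3 ^ k * Real.exp (-p) / (1 + z.im ^ 2) := by
  have hzs : ‖z‖ ^ 2 = 1 + z.im ^ 2 := by
    rw [← Complex.normSq_eq_norm_sq, Complex.normSq_apply, h1]
    ring
  have hz1 : 1 ≤ ‖z‖ := by
    have : 1 ≤ ‖z‖ ^ 2 := by
      rw [hzs]
      nlinarith [sq_nonneg z.im]
    by_contra h
    push Not at h
    nlinarith [norm_nonneg z]
  have hz : z ≠ 0 := by
    intro h
    rw [h] at hz1
    simp at hz1
    linarith
  have h3 := KF_bound k c p q (by linarith) hp hpq z hz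
  rw [h1] at h3
  have e1 : (q + k * c) * max (-1 : ℝ) 0 + p * min (-1 : ℝ) 0 = -p := by
    rw [max_eq_right (by norm_num), min_eq_left (by norm_num)]
    ring
  rw [e1] at h3
  have h4 : (3 / (1 + c * ‖z‖)) ^ k ≤ 3 ^ k / ‖z‖ := by
    rw [div_pow]
    apply div_le_div_of_nonneg_left (by positivity) (by linarith)
    calc ‖z‖ ≤ 1 + c * ‖z‖ := by nlinarith
      _ = (1 + c * ‖z‖) ^ 1 := (pow_one _).symm
      _ ≤ (1 + c * ‖z‖) ^ k := pow_le_pow_right₀ (by nlinarith) hk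
  calc ‖KF k c p q z‖ ≤ _ := h3
    _ ≤ 2 * Real.exp (-p) * (3 ^ k / ‖z‖) / ‖z‖ := by
        apply div_le_div_of_nonneg_right _ (by linarith)
        exact mul_le_mul_of_nonneg_left h4 (by positivity)
    _ = 2 * 3 ^ k * Real.exp (-p) / ‖z‖ ^ 2 := by
        field_simp
    _ = _ := by rw [hzs]

end Pool.Agent.D0H44.FW
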