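import Pool.Agent.D0H44.FW.Ex

/-! The explicit formula for the window polynomials, main theorem. -/

set_option autoImplicit false

namespace Pool.Agent.D0H44.FW

open Complex MeasureTheory Filter Topology Set
open Pool.Agent.Y857.VP (PP)
open H370

/-- zeros with ordinate in `(0, T]` -/
noncomputable def Z0 (T : ℝ) : Finset ℂ := (zeta_zeros_finite T).toFinset

/-- multiplicity -/
noncomputable def mz (s : ℂ) : ℝ := (mult riemannZeta s : ℝ)

theorem int_kern (t : ℝ) : Integrable (fun v : ℝ => 1 / (1 + (v - t) ^ 2)) ∧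
    ∫ v : ℝ, 1 / (1 + (v - t) ^ 2) = Real.pi := by
  have h1 := integrable_inv_one_add_sq
  have h2 := h1.comp_sub_right t
  constructor
  · refine h2.congr (Eventually.of_forall fun v => ?_)
    simp only [one_div]
  · have h3 := integral_sub_right_eq_self (μ := (volume : Measure ℝ)) (fun v : ℝ => (1 + v ^ 2)⁻¹) t
    simp only [one_div]
    rw [h3, integral_univ_inv_one_add_sq]

theorem ex_formula : ∃ C₀ T₀ : ℝ, 0 < C₀ ∧ 1 ≤ T₀ ∧ ∀ (k : ℕ) (c p q T t δ : ℝ), 1 ≤ k → 1 ≤ c →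
    0 ≤ p → p ≤ q → T₀ ≤ T → T / 4 ≤ t → t ≤ 4 * T →
    4 * 3 ^ k * Real.exp (q + k * c) / (T / 16) ^ (k - 1) ≤ δ →
    ‖(PP k c q ((1 / 2 : ℝ) + (t : ℂ) * I) - PP k c p ((1 / 2 : ℝ) + (t : ℂ) * I)) +
      KS k c p q (Z0 (8 * T)) mz t‖ ≤
      C₀ * (T ^ 2 * δ + 3 ^ k * Real.exp (-p) * Real.log T) := by
  classical
  obtain ⟨C1, hC1, hgh⟩ := good_height good_zeta
  obtain ⟨C2', hleft'⟩ := good_zeta.left
  obtain ⟨Cz, hCz, hcount⟩ := H343.zeta_count
  set C2 := max C2' 0 with hC2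
  have hC20 : 0 ≤ C2 := le_max_right _ _
  have hleft : ∀ s : ℂ, -1 / 2 ≤ s.re → s.re ≤ 1 / 2 → 1 ≤ s.im → riemannZeta s ≠ 0 →
    ‖deriv riemannZeta s / riemannZeta s + Real.log s.im +
      (starRingEnd ℂ) (deriv riemannZeta (1 - (starRingEnd ℂ) s) /
        riemannZeta (1 - (starRingEnd ℂ) s))‖ ≤ C2 :=
    fun s h1 h2 h3 h4 => (hleft' s h1 h2 h3 h4).trans (le_max_left _ _)
  have hD0 := D0_nonneg
  have hpi := Real.pi_pos
  refine ⟨2 * C1 + 8 * C1 + D0 * Real.pi + 2 * Real.pi * (3 + C2 + D0) + 64 * Cz, 100, by positivity,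
    by norm_num, ?_⟩
  intro k c p q T t δ hk hc hp hpq hT ht1 ht2 hδ
  have hT0 : 0 < T := by linarith
  have hc0 : 0 < c := by linarith
  set L := Real.log T with hL
  have hL1 : 4 ≤ L := by
    rw [hL, Real.le_log_iff_exp_le hT0]
    have h1 := Real.exp_one_lt_d9
    have h2 : Real.exp 4 = Real.exp 1 ^ 4 := by
      rw [← Real.exp_nat_mul]
      norm_num
    rw [h2]
    have h3 : Real.exp 1 ^ 4 ≤ (3 : ℝ) ^ 4 := pow_le_pow_left₀ (Real.exp_pos 1).le (by linarith) 4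
    norm_num at h3
    linarith
  have hLT : L ≤ T := by
    have := Real.log_le_sub_one_of_pos hT0
    linarith
  have hδ0 : 0 ≤ δ := le_trans (by positivity) hδ
  obtain ⟨U1, hU1, hg1⟩ := hgh (T / 8) (by linarith)
  obtain ⟨U2, hU2, hg2⟩ := hgh (8 * T - 1) (by linarith)
  have hU2' : U2 ≤ 8 * T := by linarith [hU2.2]
  have hU12 : U1 < U2 := by linarith [hU1.2, hU2.1]
  -- the test function
  set h : ℂ → ℂ := fun w => KF k c p q (w - 1 / 2 - (t : ℂ) * I) with hh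
  have hhd : Differentiable ℂ h := by
    have := KF_entire k c p q
    exact this.comp (by fun_prop)
  have hfar : ∀ w : ℂ, -1 / 2 ≤ w.re → w.re ≤ 3 / 2 → T / 16 ≤ |w.im - t| →
      ‖h w‖ ≤ δ / (1 + (w.im - t) ^ 2) := by
    intro w hw1 hw2 hw3
    have e1 : (w - 1 / 2 - (t : ℂ) * I).re = w.re - 1 / 2 := by simp
    have e2 : (w - 1 / 2 - (t : ℂ) * I).im = w.im - t := by simp
    have h1 := KF_far k hk c p q hc hp hpq (T / 16) (by linarith) (w - 1 / 2 - (t : ℂ) * I)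
      (by rw [e1, abs_le]; constructor <;> linarith) (by rw [e2]; exact hw3)
    rw [e2] at h1
    exact h1.trans (div_le_div_of_nonneg_right hδ (by positivity))
  have hfar' : ∀ w : ℂ, -1 / 2 ≤ w.re → w.re ≤ 3 / 2 → T / 16 ≤ |w.im - t| → ‖h w‖ ≤ δ := by
    intro w hw1 hw2 hw3
    refine (hfar w hw1 hw2 hw3).trans (div_le_self hδ0 ?_)
    nlinarith [sq_nonneg (w.im - t)]
  -- residue theorem
  have hK : ∀ s ∈ Set.Icc (-1 / 2 : ℝ) (3 / 2) ×ℂ Set.Icc U1 U2, 1 ≤ s.im ∧ U1 ≤ s.im ∧ s.im ≤ U2 ∧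
      -1 / 2 ≤ s.re ∧ s.re ≤ 3 / 2 := by
    intro s hs
    obtain ⟨h1, h2⟩ := hs
    rw [mem_preimage] at h1 h2
    exact ⟨by linarith [h2.1, hU1.1], h2.1, h2.2, h1.1, h1.2⟩
  have hzero : ∀ s ∈ Set.Icc (-1 / 2 : ℝ) (3 / 2) ×ℂ Set.Icc U1 U2, riemannZeta s = 0 →
      0 < s.re ∧ s.re < 1 ∧ U1 < s.im ∧ s.im < U2 := by
    intro s hs h0
    obtain ⟨h1, h2, h3, h4, h5⟩ := hK s hs
    refine ⟨?_, ?_, ?_, ?_⟩
    · by_contra hc
      exact good_zeta.nzl s (not_lt.1 hc) h1 h0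
    · by_contra hc
      exact good_zeta.nzr s (not_lt.1 hc) h1 h0
    · refine lt_of_le_of_ne h2 (fun he => ?_)
      have := (hg1 s.re ⟨h4, h5⟩).1
      rw [he] at this
      exact this h0
    · refine lt_of_le_of_ne h3 (fun he => ?_)
      have := (hg2 s.re ⟨h4, h5⟩).1
      rw [← he] at this
      exact this h0
  have hres := (rect_residue riemannZeta h (-1 / 2) (3 / 2) U1 U2 (by norm_num) hU12
    (fun s hs => good_zeta.an s (by linarith [(hK s hs).1])) hhd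
    (fun s hs h0 => by
      obtain ⟨h1, h2, h3, h4⟩ := hzero s hs h0
      exact ⟨⟨by linarith, by linarith⟩, ⟨h3, h4⟩⟩)).2
  have hset : {s | s ∈ Set.Ioo (-1 / 2 : ℝ) (3 / 2) ×ℂ Set.Ioo U1 U2 ∧ riemannZeta s = 0} =
      zset riemannZeta U1 U2 := by
    ext s
    constructor
    · rintro ⟨h1, h2⟩
      obtain ⟨h3, h4, h5, h6⟩ := hzero s ⟨Ioo_subset_Icc_self h1.1, Ioo_subset_Icc_self h1.2⟩ h2
      exact ⟨h3, h4, h5, h6.le, h2⟩
    · rintro ⟨h3, h4, h5, h6, h7⟩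
      obtain ⟨k1, k2, k3, k4⟩ := hzero s ⟨⟨by linarith, by linarith⟩, ⟨h5.le, h6⟩⟩ h7
      exact ⟨⟨⟨by linarith, by linarith⟩, ⟨k3, k4⟩⟩, h7⟩
  rw [hset] at hres
  have hzfin := zset_finite good_zeta U1 U2 (by linarith [hU1.1])
  have hSum : ∑ᶠ s ∈ zset riemannZeta U1 U2, (mult riemannZeta s : ℂ) * h s =
      ∑ s ∈ hzfin.toFinset, (mult riemannZeta s : ℂ) * h s :=
    finsum_mem_eq_finite_toFinset_sum _ hzfin
  rw [hSum] at hres
  set AS := ∑ s ∈ hzfin.toFinset, (mult riemannZeta s : ℂ) * h s with hAS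
  set HB := ∫ x in (-1 / 2 : ℝ)..(3 / 2), deriv riemannZeta (⟨x, U1⟩ : ℂ) / riemannZeta ⟨x, U1⟩ *
    h ⟨x, U1⟩ with hHB
  set HT := ∫ x in (-1 / 2 : ℝ)..(3 / 2), deriv riemannZeta (⟨x, U2⟩ : ℂ) / riemannZeta ⟨x, U2⟩ *
    h ⟨x, U2⟩ with hHT
  set R := ∫ y in U1..U2, deriv riemannZeta (⟨3 / 2, y⟩ : ℂ) / riemannZeta ⟨3 / 2, y⟩ *
    h ⟨3 / 2, y⟩ with hR
  set Lf := ∫ y in U1..U2, deriv riemannZeta (⟨-1 / 2, y⟩ : ℂ) / riemannZeta ⟨-1 / 2, y⟩ *
    h ⟨-1 / 2, y⟩ with hLf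
  have hd1 : T / 16 ≤ |U1 - t| := by
    rw [abs_sub_comm]
    refine le_trans ?_ (le_abs_self _)
    linarith [hU1.2]
  have hd2 : T / 16 ≤ |U2 - t| := by
    refine le_trans ?_ (le_abs_self _)
    linarith [hU2.1]
  -- horizontal sides
  have hHBb : ‖HB‖ ≤ 2 * C1 * (T ^ 2 * δ) := by
    have : ‖HB‖ ≤ (C1 * L ^ 2 * δ) * |(3 / 2 : ℝ) - (-1 / 2)| := by
      apply intervalIntegral.norm_integral_le_of_norm_le_const
      intro x hx
      rw [uIoc_of_le (by norm_num)] at hx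
      have hx' : x ∈ Set.Icc (-1 / 2 : ℝ) (3 / 2) := ⟨hx.1.le, hx.2⟩
      rw [norm_mul]
      apply mul_le_mul _ (hfar' _ hx'.1 hx'.2 hd1) (norm_nonneg _) (by positivity)
      refine (hg1 x hx').2.trans ?_
      apply mul_le_mul_of_nonneg_left _ hC1.le
      apply pow_le_pow_left₀ (Real.log_nonneg (by linarith))
      exact Real.log_le_log (by linarith) (by linarith)
    rw [show |(3 / 2 : ℝ) - (-1 / 2)| = 2 by norm_num] at this
    have hL2 : L ^ 2 ≤ T ^ 2 := pow_le_pow_left₀ (by linarith) hLT 2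
    calc ‖HB‖ ≤ _ := this
      _ = 2 * C1 * (L ^ 2 * δ) := by ring
      _ ≤ 2 * C1 * (T ^ 2 * δ) := by
          apply mul_le_mul_of_nonneg_left _ (by positivity)
          exact mul_le_mul_of_nonneg_right hL2 hδ0
  have hlog2 : Real.log (8 * T - 1) ≤ 2 * L := by
    have : Real.log (8 * T - 1) ≤ Real.log (T ^ 2) := by
      apply Real.log_le_log (by linarith)
      nlinarith
    rw [Real.log_pow] at this
    exact_mod_cast this
  have hHTb : ‖HT‖ ≤ 8 * C1 * (T ^ 2 * δ) := by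
    have : ‖HT‖ ≤ (C1 * (2 * L) ^ 2 * δ) * |(3 / 2 : ℝ) - (-1 / 2)| := by
      apply intervalIntegral.norm_integral_le_of_norm_le_const
      intro x hx
      rw [uIoc_of_le (by norm_num)] at hx
      have hx' : x ∈ Set.Icc (-1 / 2 : ℝ) (3 / 2) := ⟨hx.1.le, hx.2⟩
      rw [norm_mul]
      apply mul_le_mul _ (hfar' _ hx'.1 hx'.2 hd2) (norm_nonneg _) (by positivity)
      refine (hg2 x hx').2.trans ?_
      apply mul_le_mul_of_nonneg_left _ hC1.le
      exact pow_le_pow_left₀ (Real.log_nonneg (by linarith)) hlog2 2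
    rw [show |(3 / 2 : ℝ) - (-1 / 2)| = 2 by norm_num] at this
    have hL2 : L ^ 2 ≤ T ^ 2 := pow_le_pow_left₀ (by linarith) hLT 2
    calc ‖HT‖ ≤ _ := this
      _ = 8 * C1 * (L ^ 2 * δ) := by ring
      _ ≤ 8 * C1 * (T ^ 2 * δ) := by
          apply mul_le_mul_of_nonneg_left _ (by positivity)
          exact mul_le_mul_of_nonneg_right hL2 hδ0
  -- right side
  have hRD : ∀ y : ℝ, deriv riemannZeta (⟨3 / 2, y⟩ : ℂ) / riemannZeta ⟨3 / 2, y⟩ =
      - DD La (⟨3 / 2, y⟩ : ℂ) := by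
    intro y
    exact H343.zeta_ld _ (by norm_num)
  have hReq : R = - ∫ y in U1..U2, DD La (⟨3 / 2, y⟩ : ℂ) * h ⟨3 / 2, y⟩ := by
    rw [hR, ← intervalIntegral.integral_neg]
    apply intervalIntegral.integral_congr
    intro y hy
    simp only
    rw [hRD y]; ring
  have hDDc := DD_cont La La_le
  have hmk : Continuous (fun y : ℝ => (⟨3 / 2, y⟩ : ℂ)) := by
    have : (fun y : ℝ => (⟨3 / 2, y⟩ : ℂ)) = fun y : ℝ => ((3 / 2 : ℝ) : ℂ) + y * I := by
      funext v; exact mk_eq _ v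
    rw [this]; fun_prop
  have hmk' : Continuous (fun y : ℝ => (⟨-1 / 2, y⟩ : ℂ)) := by
    have : (fun y : ℝ => (⟨-1 / 2, y⟩ : ℂ)) = fun y : ℝ => ((-1 / 2 : ℝ) : ℂ) + y * I := by
      funext v; exact mk_eq _ v
    rw [this]; fun_prop
  have hhR : Integrable (fun y : ℝ => h ⟨3 / 2, y⟩) := by
    have h1 := (KF_line_int k hk c p q hc0).comp_sub_right t
    refine h1.congr (Eventually.of_forall fun v => ?_)
    simp only [hh]
    congr 1
    rw [mk_eq]
    push_cast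
    ring
  have hfi : Integrable (fun y : ℝ => DD La (⟨3 / 2, y⟩ : ℂ) * h ⟨3 / 2, y⟩) := by
    refine (hhR.norm.const_mul D0).mono' ?_ (Eventually.of_forall fun v => ?_)
    · exact (hDDc.mul (hhd.continuous.comp hmk)).aestronglyMeasurable
    · rw [norm_mul]
      exact mul_le_mul_of_nonneg_right (norm_DD La La_le v) (norm_nonneg _)
  obtain ⟨hk1, hk2⟩ := int_kern t
  have heR : ‖(∫ v : ℝ, DD La (⟨3 / 2, v⟩ : ℂ) * h (⟨3 / 2, v⟩ : ℂ)) -
      ∫ y in U1..U2, DD La (⟨3 / 2, y⟩ : ℂ) * h ⟨3 / 2, y⟩‖ ≤ D0 * Real.pi * δ := by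
    rw [intervalIntegral.integral_of_le hU12.le]
    have e1 : (∫ v : ℝ, DD La (⟨3 / 2, v⟩ : ℂ) * h (⟨3 / 2, v⟩ : ℂ)) -
        ∫ v in Ioc U1 U2, DD La (⟨3 / 2, v⟩ : ℂ) * h (⟨3 / 2, v⟩ : ℂ) =
        ∫ v in (Ioc U1 U2)ᶜ, DD La (⟨3 / 2, v⟩ : ℂ) * h (⟨3 / 2, v⟩ : ℂ) := by
      rw [← integral_add_compl measurableSet_Ioc hfi]
      ring
    rw [e1]
    calc ‖∫ v in (Ioc U1 U2)ᶜ, DD La (⟨3 / 2, v⟩ : ℂ) * h (⟨3 / 2, v⟩ : ℂ)‖ ≤
        ∫ v in (Ioc U1 U2)ᶜ, ‖DD La (⟨3 / 2, v⟩ : ℂ) * h (⟨3 / 2, v⟩ : ℂ)‖ :=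
          norm_integral_le_integral_norm _
      _ ≤ ∫ v in (Ioc U1 U2)ᶜ, (D0 * δ) * (1 / (1 + (v - t) ^ 2)) := by
          apply setIntegral_mono_on hfi.norm.integrableOn (hk1.const_mul _).integrableOn
            measurableSet_Ioc.compl
          intro v hv
          have hv' : T / 16 ≤ |v - t| := by
            rw [mem_compl_iff, mem_Ioc, not_and_or, not_lt, not_le] at hv
            rcases hv with hv | hv
            · rw [abs_sub_comm]
              refine le_trans ?_ (le_abs_self _)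
              linarith [hU1.2]
            · refine le_trans ?_ (le_abs_self _)
              linarith [hU2.1]
          rw [norm_mul]
          have h3 := hfar (⟨3 / 2, v⟩ : ℂ) (by norm_num) (by norm_num) hv'
          calc ‖DD La (⟨3 / 2, v⟩ : ℂ)‖ * ‖h (⟨3 / 2, v⟩ : ℂ)‖ ≤ D0 * (δ / (1 + (v - t) ^ 2)) :=
                mul_le_mul (norm_DD La La_le v) h3 (norm_nonneg _) hD0
            _ = _ := by ring
      _ ≤ ∫ v : ℝ, (D0 * δ) * (1 / (1 + (v - t) ^ 2)) :=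
          setIntegral_le_integral (hk1.const_mul _) (Eventually.of_forall fun v => by
            show 0 ≤ (D0 * δ) * (1 / (1 + (v - t) ^ 2))
            positivity)
      _ = D0 * Real.pi * δ := by
          rw [integral_const_mul, hk2]
          ring
  have hDDK := DDK_integral k hk c p q hc0 hpq t
  rw [hDDK] at heR
  -- left side
  have hFl : ∀ y ∈ Icc U1 U2, riemannZeta (⟨-1 / 2, y⟩ : ℂ) ≠ 0 := by
    intro y hy
    exact good_zeta.nzl _ (by norm_num) (by show (1 : ℝ) ≤ y; linarith [hy.1, hU1.1])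
  have hEb : ∀ y ∈ Icc U1 U2, ‖deriv riemannZeta (⟨-1 / 2, y⟩ : ℂ) / riemannZeta ⟨-1 / 2, y⟩‖ ≤
      (3 + C2 + D0) * L := by
    intro y hy
    have hy1 : 1 ≤ y := by linarith [hy.1, hU1.1]
    have h1 := hleft (⟨-1 / 2, y⟩ : ℂ) (by norm_num) (by norm_num) hy1 (hFl y hy)
    have h2 : (1 : ℂ) - (starRingEnd ℂ) (⟨-1 / 2, y⟩ : ℂ) = ⟨3 / 2, y⟩ := by
      apply Complex.ext <;> simp <;> norm_num
    rw [h2, hRD y] at h1
    have h3 : ‖(starRingEnd ℂ) (-DD La (⟨3 / 2, y⟩ : ℂ))‖ ≤ D0 := by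
      rw [RCLike.norm_conj, norm_neg]
      exact norm_DD La La_le y
    have h4 : ‖(Real.log y : ℂ)‖ ≤ 2 * L := by
      rw [Complex.norm_real, Real.norm_eq_abs, abs_of_nonneg (Real.log_nonneg hy1)]
      have : Real.log y ≤ Real.log (T ^ 2) := by
        apply Real.log_le_log (by linarith)
        have := hy.2
        nlinarith
      rw [Real.log_pow] at this
      exact_mod_cast this
    have h5 : deriv riemannZeta (⟨-1 / 2, y⟩ : ℂ) / riemannZeta ⟨-1 / 2, y⟩ =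
        (deriv riemannZeta (⟨-1 / 2, y⟩ : ℂ) / riemannZeta ⟨-1 / 2, y⟩ +
          (Real.log (⟨-1 / 2, y⟩ : ℂ).im : ℂ) +
        (starRingEnd ℂ) (-DD La (⟨3 / 2, y⟩ : ℂ))) - (starRingEnd ℂ) (-DD La (⟨3 / 2, y⟩ : ℂ))
        - (Real.log y : ℂ) := by
      ring
    rw [h5]
    calc ‖_‖ ≤ _ := (norm_sub_le _ _).trans (add_le_add_left (norm_sub_le _ _) _)
      _ ≤ C2 + D0 + 2 * L := add_le_add (add_le_add h1 h3) h4
      _ ≤ (3 + C2 + D0) * L := by nlinarith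
  have hLfb : ‖Lf‖ ≤ 2 * Real.pi * (3 + C2 + D0) * (3 ^ k * Real.exp (-p) * L) := by
    have h1 : ‖Lf‖ ≤ ∫ y in U1..U2, ((3 + C2 + D0) * L * (2 * 3 ^ k * Real.exp (-p))) *
        (1 / (1 + (y - t) ^ 2)) := by
      apply intervalIntegral.norm_integral_le_of_norm_le hU12.le
      · refine Eventually.of_forall fun y hy => ?_
        have hy' : y ∈ Icc U1 U2 := Ioc_subset_Icc_self hy
        rw [norm_mul]
        have h3 : ‖h (⟨-1 / 2, y⟩ : ℂ)‖ ≤ 2 * 3 ^ k * Real.exp (-p) / (1 + (y - t) ^ 2) := by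
          have h4 := KF_left k hk c p q hc hp hpq ((⟨-1 / 2, y⟩ : ℂ) - 1 / 2 - (t : ℂ) * I)
            (by simp; norm_num)
          have e2 : ((⟨-1 / 2, y⟩ : ℂ) - 1 / 2 - (t : ℂ) * I).im = y - t := by simp
          rw [e2] at h4
          exact h4
        calc _ ≤ ((3 + C2 + D0) * L) * (2 * 3 ^ k * Real.exp (-p) / (1 + (y - t) ^ 2)) :=
              mul_le_mul (hEb y hy') h3 (norm_nonneg _) (by positivity)
          _ = _ := by ring
      · exact (hk1.const_mul _).intervalIntegrable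
    have h2 : ∫ y in U1..U2, ((3 + C2 + D0) * L * (2 * 3 ^ k * Real.exp (-p))) *
        (1 / (1 + (y - t) ^ 2)) ≤ ∫ y : ℝ, ((3 + C2 + D0) * L * (2 * 3 ^ k * Real.exp (-p))) *
        (1 / (1 + (y - t) ^ 2)) := by
      rw [intervalIntegral.integral_of_le hU12.le]
      exact setIntegral_le_integral (hk1.const_mul _) (Eventually.of_forall fun v => by
        show 0 ≤ ((3 + C2 + D0) * L * (2 * 3 ^ k * Real.exp (-p))) * (1 / (1 + (v - t) ^ 2))
        positivity)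
    rw [integral_const_mul, hk2] at h2
    refine (h1.trans h2).trans (le_of_eq ?_)
    ring
  -- the zeros outside the rectangle
  have hsub : hzfin.toFinset ⊆ Z0 (8 * T) := by
    intro s hs
    unfold Z0
    rw [Set.Finite.mem_toFinset] at hs ⊢
    obtain ⟨a1, a2, a3, a4, a5⟩ := hs
    exact ⟨a1, a2, by linarith [hU1.1], by linarith, a5⟩
  have hdiff : KS k c p q (Z0 (8 * T)) mz t - AS =
      ∑ s ∈ Z0 (8 * T) \ hzfin.toFinset, (mult riemannZeta s : ℂ) * h s := by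
    rw [sub_eq_iff_eq_add, hAS, Finset.sum_sdiff hsub]
    unfold KS mz
    simp only [Complex.ofReal_natCast]
    rfl
  have hout : ‖KS k c p q (Z0 (8 * T)) mz t - AS‖ ≤ 64 * Cz * (T ^ 2 * δ) := by
    rw [hdiff]
    have hbound : ∀ s ∈ Z0 (8 * T) \ hzfin.toFinset,
        ‖(mult riemannZeta s : ℂ) * h s‖ ≤ (mult riemannZeta s : ℝ) * δ := by
      intro s hs
      unfold Z0 at hs
      rw [Finset.mem_sdiff, Set.Finite.mem_toFinset, Set.Finite.mem_toFinset] at hs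
      obtain ⟨⟨a1, a2, a3, a4, a5⟩, hns⟩ := hs
      have hout : s.im ≤ U1 ∨ U2 < s.im := by
        by_contra h
        push Not at h
        exact hns ⟨a1, a2, h.1, h.2, a5⟩
      have hdist : T / 16 ≤ |s.im - t| := by
        rcases hout with h | h
        · rw [abs_sub_comm]
          refine le_trans ?_ (le_abs_self _)
          linarith [hU1.2]
        · refine le_trans ?_ (le_abs_self _)
          linarith [hU2.1]
      rw [norm_mul, Complex.norm_natCast]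
      apply mul_le_mul_of_nonneg_left _ (Nat.cast_nonneg _)
      exact hfar' s (by linarith) (by linarith) hdist
    refine (norm_sum_le_of_le _ hbound).trans ?_
    rw [← Finset.sum_mul]
    have h1 : ∑ s ∈ Z0 (8 * T) \ hzfin.toFinset, (mult riemannZeta s : ℝ) ≤ Cz * (8 * T) ^ 2 := by
      refine le_trans ?_ (hcount (8 * T) (by linarith))
      apply Finset.sum_le_sum_of_subset_of_nonneg Finset.sdiff_subset
      intro s _ _
      exact Nat.cast_nonneg _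
    calc _ ≤ Cz * (8 * T) ^ 2 * δ := mul_le_mul_of_nonneg_right h1 hδ0
      _ = _ := by ring
  -- assembling
  set Pd := PP k c q ((1 / 2 : ℝ) + (t : ℂ) * I) - PP k c p ((1 / 2 : ℝ) + (t : ℂ) * I) with hPd
  set IR := ∫ y in U1..U2, DD La (⟨3 / 2, y⟩ : ℂ) * h ⟨3 / 2, y⟩ with hIR
  have hpi0 : (Real.pi : ℂ) ≠ 0 := by exact_mod_cast Real.pi_ne_zero
  have hmain : Pd + AS = (1 / (2 * Real.pi)) * ((-I) * (HB - HT) + (2 * Real.pi * Pd - IR) - Lf) := by
    have h3 : AS = (1 / (2 * Real.pi)) * ((-I) * (HB - HT) + R - Lf) := by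
      have hI : I ≠ 0 := I_ne_zero
      have h4 : 2 * Real.pi * I * AS = HB - HT + I * R - I * Lf := hres.symm
      field_simp
      have h5 : I * (2 * Real.pi * AS) = I * (-(I * (HB - HT)) + R - Lf) := by
        linear_combination h4 + (HB - HT) * I_sq
      have h6 := mul_left_cancel₀ hI h5
      linear_combination h6
    rw [h3, hReq]
    field_simp
    ring
  have hn1 : ‖(1 / (2 * Real.pi) : ℂ)‖ ≤ 1 := by
    rw [norm_div, norm_mul]
    simp only [norm_one, Complex.norm_ofNat, Complex.norm_real, Real.norm_eq_abs, abs_of_pos Real.pi_pos]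
    rw [div_le_one (by positivity)]
    have := Real.pi_gt_three
    linarith
  have hPA : ‖Pd + AS‖ ≤ 2 * C1 * (T ^ 2 * δ) + 8 * C1 * (T ^ 2 * δ) + D0 * Real.pi * δ +
      2 * Real.pi * (3 + C2 + D0) * (3 ^ k * Real.exp (-p) * L) := by
    rw [hmain, norm_mul]
    have h1 : ‖(-I) * (HB - HT)‖ ≤ 2 * C1 * (T ^ 2 * δ) + 8 * C1 * (T ^ 2 * δ) := by
      rw [norm_mul, norm_neg, norm_I, one_mul]
      exact (norm_sub_le _ _).trans (add_le_add hHBb hHTb)
    have h2 : ‖(-I) * (HB - HT) + (2 * Real.pi * Pd - IR) - Lf‖ ≤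
        2 * C1 * (T ^ 2 * δ) + 8 * C1 * (T ^ 2 * δ) + D0 * Real.pi * δ +
        2 * Real.pi * (3 + C2 + D0) * (3 ^ k * Real.exp (-p) * L) := by
      refine (norm_sub_le _ _).trans (add_le_add ?_ hLfb)
      exact (norm_add_le _ _).trans (add_le_add h1 heR)
    calc ‖(1 / (2 * Real.pi) : ℂ)‖ * ‖_‖ ≤ 1 * _ :=
          mul_le_mul hn1 h2 (norm_nonneg _) zero_le_one
      _ = _ := one_mul _
  have hfinal : Pd + KS k c p q (Z0 (8 * T)) mz t =
      (Pd + AS) + (KS k c p q (Z0 (8 * T)) mz t - AS) := by ring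
  rw [hfinal]
  refine (norm_add_le _ _).trans ((add_le_add hPA hout).trans ?_)
  have hT2 : 1 ≤ T ^ 2 := one_le_pow₀ (by linarith)
  have hδT : δ ≤ T ^ 2 * δ := le_mul_of_one_le_left hδ0 hT2
  obtain ⟨x, hx⟩ : ∃ x, x = T ^ 2 * δ := ⟨_, rfl⟩
  obtain ⟨y, hy⟩ : ∃ y, y = 3 ^ k * Real.exp (-p) * L := ⟨_, rfl⟩
  have hy0 : 0 ≤ y := by rw [hy]; positivity
  have hx0 : 0 ≤ x := by rw [hx]; positivity
  rw [← hx, ← hy]
  rw [← hx] at hδT
  have h1 : D0 * Real.pi * δ ≤ D0 * Real.pi * x := mul_le_mul_of_nonneg_left hδT (by positivity)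
  have h2 : 0 ≤ (2 * C1 + 8 * C1 + D0 * Real.pi + 64 * Cz) * y := by positivity
  have h3 : 0 ≤ (2 * Real.pi * (3 + C2 + D0)) * x := by positivity
  nlinarith

end Pool.Agent.D0H44.FW
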