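import Pool.Agent.D0H44.FW.Ex2
import Pool.Agent.D0H44.GM.Core

/-! The pair sum over a window of length greater than one. -/

set_option autoImplicit false

namespace Pool.Agent.D0H44.FW

open Complex MeasureTheory Filter Topology Set
open Pool.Agent.Y857.VP (PP Bf Bf_cont ev_log)
open H343 (PPair kW)

theorem Z0_strip (T : ℝ) : ∀ s ∈ Z0 T, 0 < s.re ∧ s.re < 1 := by
  intro s hs
  unfold Z0 at hs
  rw [Set.Finite.mem_toFinset] at hs
  exact ⟨hs.1, hs.2.1⟩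

/-- the pair sum of the zeros up to `T` -/
noncomputable def PW (T v : ℝ) : ℝ := (PPair kW v (Z0 T) mz).re

theorem PW_cont' (T : ℝ) : Continuous (PW T) := PW_cont (Z0 T) mz

theorem PW_nonneg' (T v : ℝ) : 0 ≤ PW T v := PW_nonneg v (Z0 T) mz (Z0_strip T)

theorem window_v (a η : ℝ) (ha : 1 + 2 * η ≤ a) (hη0 : 0 < η) (hη1 : η ≤ 1) :
    ∃ c T₀ : ℝ, 0 < c ∧ ∀ T : ℝ, T₀ ≤ T →
      c * T * Real.log T ^ 2 ≤
        ∫ v in (a * Real.log T)..((a + 1 + 6 * η) * Real.log T), PW (8 * T) v := by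
  obtain ⟨b, hb⟩ : ∃ b, b = a + 1 + 5 * η := ⟨_, rfl⟩
  obtain ⟨k0, hk0⟩ := Pool.Agent.D0H44.GM.core a η ha hη0 hη1
  obtain ⟨k1, hk1⟩ := exists_nat_ge (a + 1 + 6 * η + 5)
  obtain ⟨k, hkk0, hkk1⟩ : ∃ k : ℕ, k0 ≤ k ∧ k1 + 1 ≤ k :=
    ⟨max k0 (k1 + 1), le_max_left _ _, le_max_right _ _⟩
  obtain ⟨c, T₁, hc, hcore⟩ := hk0 k hkk0
  obtain ⟨C₀, T₂, hC₀, hT₂1, hex⟩ := ex_formula
  have hpi := Real.pi_pos
  obtain ⟨T₄, hT₄⟩ := ev_log (max (max 1 (k / η)) (max (16 / c) 4))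
  have hk1 : 1 ≤ k := by omega
  have hk0r : (0 : ℝ) < k := by exact_mod_cast hk1
  obtain ⟨K1, hK1⟩ : ∃ K1 : ℝ, K1 = C₀ * (4 * 3 ^ k * 16 ^ (k - 1)) := ⟨_, rfl⟩
  obtain ⟨K2, hK2⟩ : ∃ K2 : ℝ, K2 = C₀ * 3 ^ k := ⟨_, rfl⟩
  have hK10 : 0 < K1 := by rw [hK1]; positivity
  have hK20 : 0 < K2 := by rw [hK2]; positivity
  have hev : ∀ᶠ T : ℝ in atTop, K2 * Real.log T ≤ 1 / 2 * T := by
    have h := (Real.isLittleO_log_id_atTop).bound (by positivity : (0 : ℝ) < 1 / (2 * K2))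
    filter_upwards [h, eventually_ge_atTop 1] with T hT hT1
    rw [Real.norm_of_nonneg (Real.log_nonneg hT1), id, Real.norm_of_nonneg (by linarith)] at hT
    calc K2 * Real.log T ≤ K2 * (1 / (2 * K2) * T) := mul_le_mul_of_nonneg_left hT hK20.le
      _ = 1 / 2 * T := by
        field_simp
  obtain ⟨T₅, hT₅⟩ := eventually_atTop.1 hev
  refine ⟨c / (16 * Real.pi * Real.exp 2), max (max T₁ T₂) (max (max T₄ T₅) (2 * K1 + 16)),
    by positivity, fun T hT => ?_⟩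
  simp only [max_le_iff] at hT
  obtain ⟨⟨hTT1, hTT2⟩, ⟨hTT4, hTT5⟩, hTK⟩ := hT
  have hLL := hT₄ T hTT4
  simp only [max_le_iff] at hLL
  obtain ⟨⟨hL1, hLk⟩, hLc, hL4⟩ := hLL
  have hT0 : 0 < T := by linarith
  have hcore := hcore T hTT1
  have hlog := hT₅ T hTT5
  obtain ⟨L, hL⟩ : ∃ L : ℝ, L = Real.log T := ⟨_, rfl⟩
  rw [← hL] at hL1 hLk hLc hL4 hcore hlog ⊢
  have hL0 : 0 < L := by linarith
  rw [div_le_iff₀ hη0] at hLk
  rw [div_le_iff₀ hc] at hLc
  obtain ⟨cc, hcc⟩ : ∃ cc : ℝ, cc = η * L / k := ⟨_, rfl⟩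
  have hcc1 : 1 ≤ cc := by
    rw [hcc, le_div_iff₀ hk0r]
    linarith
  have hkcc : (k : ℝ) * cc = η * L := by
    rw [hcc]
    field_simp
  have hpq : a * L ≤ b * L := by
    apply mul_le_mul_of_nonneg_right _ hL0.le
    linarith
  have hQ : b * L + k * cc = (a + 1 + 6 * η) * L := by
    rw [hkcc, hb]
    ring
  obtain ⟨δ, hδ⟩ : ∃ δ : ℝ, δ = 4 * 3 ^ k * Real.exp (b * L + k * cc) / (T / 16) ^ (k - 1) := ⟨_, rfl⟩
  -- the error term is at most one
  have herr1 : C₀ * (T ^ 2 * δ) ≤ 1 / 2 := by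
    have e1 : Real.exp (b * L + k * cc) = T ^ (a + 1 + 6 * η) := by
      rw [hQ, Real.rpow_def_of_pos hT0, hL, mul_comm]
    have e2 : (T / 16) ^ (k - 1) = T ^ (((k - 1 : ℕ) : ℝ)) / 16 ^ (k - 1) := by
      rw [div_pow, Real.rpow_natCast]
    have hkm : a + 1 + 6 * η + 5 ≤ ((k - 1 : ℕ) : ℝ) := by
      have : (k1 : ℝ) ≤ ((k - 1 : ℕ) : ℝ) := by exact_mod_cast (by omega : k1 ≤ k - 1)
      linarith
    have hT1 : 1 ≤ T := by linarith
    rw [hδ, e1, e2]
    calc C₀ * (T ^ 2 * (4 * 3 ^ k * T ^ (a + 1 + 6 * η) / (T ^ (((k - 1 : ℕ) : ℝ)) / 16 ^ (k - 1)))) =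
        K1 * (T ^ 2 * (T ^ (a + 1 + 6 * η) / T ^ (((k - 1 : ℕ) : ℝ)))) := by
          rw [hK1]
          have : T ^ (((k - 1 : ℕ) : ℝ)) ≠ 0 := by positivity
          field_simp
      _ ≤ K1 * (T ^ 2 * T ^ (-(5 : ℝ))) := by
          apply mul_le_mul_of_nonneg_left _ hK10.le
          apply mul_le_mul_of_nonneg_left _ (by positivity)
          rw [← Real.rpow_sub hT0]
          exact Real.rpow_le_rpow_of_exponent_le hT1 (by linarith)
      _ = K1 * T ^ (-(3 : ℝ)) := by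
          rw [← Real.rpow_natCast T 2, ← Real.rpow_add hT0]
          norm_num
      _ ≤ K1 * T ^ (-(1 : ℝ)) := by
          apply mul_le_mul_of_nonneg_left _ hK10.le
          exact Real.rpow_le_rpow_of_exponent_le hT1 (by norm_num)
      _ = K1 / T := by
          rw [Real.rpow_neg_one]
          rfl
      _ ≤ 1 / 2 := by
          rw [div_le_iff₀ hT0]
          linarith
  have herr2 : C₀ * (3 ^ k * Real.exp (-(a * L)) * L) ≤ 1 / 2 := by
    have e1 : Real.exp (-(a * L)) ≤ 1 / T := by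
      have h1 : Real.exp (-(a * L)) ≤ Real.exp (-L) := by
        apply Real.exp_le_exp.2
        nlinarith
      refine h1.trans (le_of_eq ?_)
      rw [Real.exp_neg, hL, Real.exp_log hT0, one_div]
    calc C₀ * (3 ^ k * Real.exp (-(a * L)) * L) ≤ C₀ * (3 ^ k * (1 / T) * L) := by
          apply mul_le_mul_of_nonneg_left _ hC₀.le
          apply mul_le_mul_of_nonneg_right _ hL0.le
          exact mul_le_mul_of_nonneg_left e1 (by positivity)
      _ = K2 * L / T := by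
          rw [hK2]
          ring
      _ ≤ 1 / 2 := by
          rw [div_le_iff₀ hT0]
          linarith
  have hpt : ∀ t ∈ Icc (T / 4) (4 * T), Bf T a (a + 1 + 5 * η) η k t ^ 2 ≤
      2 * ‖KS k cc (a * L) (b * L) (Z0 (8 * T)) mz t‖ ^ 2 + 2 := by
    intro t ht
    have h1 := hex k cc (a * L) (b * L) T t δ hk1 hcc1 (by
      apply mul_nonneg _ hL0.le
      linarith) hpq hTT2 ht.1 ht.2 hδ.ge
    rw [← hL] at h1
    have h2 : C₀ * (T ^ 2 * δ + 3 ^ k * Real.exp (-(a * L)) * L) ≤ 1 := by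
      rw [mul_add]
      linarith
    have h3 := h1.trans h2
    unfold Pool.Agent.Y857.VP.Bf
    rw [← hL, ← hcc, ← hb]
    obtain ⟨X, hX⟩ : ∃ X, X = PP k cc (b * L) ((1 / 2 : ℝ) + (t : ℂ) * I) -
      PP k cc (a * L) ((1 / 2 : ℝ) + (t : ℂ) * I) := ⟨_, rfl⟩
    rw [← hX] at h3 ⊢
    have h4 : ‖X‖ ≤ ‖KS k cc (a * L) (b * L) (Z0 (8 * T)) mz t‖ + 1 := by
      calc ‖X‖ = ‖(X + KS k cc (a * L) (b * L) (Z0 (8 * T)) mz t) -
            KS k cc (a * L) (b * L) (Z0 (8 * T)) mz t‖ := by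
            congr 1
            ring
        _ ≤ _ := by
          refine (norm_sub_le _ _).trans ?_
          linarith
    have h5 := pow_le_pow_left₀ (norm_nonneg _) h4 2
    nlinarith [sq_nonneg (‖KS k cc (a * L) (b * L) (Z0 (8 * T)) mz t‖ - 1)]
  have hle : T / 4 ≤ 4 * T := by linarith
  have hKc := (KS_cont k cc (a * L) (b * L) (Z0 (8 * T)) mz).norm.pow 2
  have hint : ∫ t in (T / 4)..(4 * T), Bf T a (a + 1 + 5 * η) η k t ^ 2 ≤
      2 * (∫ t in (T / 4)..(4 * T), ‖KS k cc (a * L) (b * L) (Z0 (8 * T)) mz t‖ ^ 2) + 8 * T := by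
    have i1 : IntervalIntegrable (fun t : ℝ =>
        2 * ‖KS k cc (a * L) (b * L) (Z0 (8 * T)) mz t‖ ^ 2) volume (T / 4) (4 * T) :=
      (hKc.const_mul _).intervalIntegrable _ _
    calc _ ≤ ∫ t in (T / 4)..(4 * T),
          (2 * ‖KS k cc (a * L) (b * L) (Z0 (8 * T)) mz t‖ ^ 2 + 2) := by
          apply intervalIntegral.integral_mono_on hle
            (((Bf_cont T a _ η k).pow 2).intervalIntegrable _ _) (i1.add (by simp)) hpt
      _ = 2 * (∫ t in (T / 4)..(4 * T), ‖KS k cc (a * L) (b * L) (Z0 (8 * T)) mz t‖ ^ 2) +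
          (4 * T - T / 4) * 2 := by
          rw [intervalIntegral.integral_add i1 (by simp),
            intervalIntegral.integral_const_mul, intervalIntegral.integral_const, smul_eq_mul]
      _ ≤ _ := by linarith
  have hPl := planch_Z k cc (a * L) (b * L) (by linarith) hpq (Z0 (8 * T)) mz (T / 4) (4 * T) hle
  have hW := W_lower (Z0 (8 * T)) mz (Z0_strip (8 * T)) (a * L) (b * L + k * cc) (by
    rw [hQ]
    nlinarith)
  rw [hQ] at hPl hW
  have hPWe : ∫ v in (a * L)..((a + 1 + 6 * η) * L), PW (8 * T) v =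
      ∫ v in (a * L)..((a + 1 + 6 * η) * L), (PPair kW v (Z0 (8 * T)) mz).re := rfl
  rw [hPWe]
  obtain ⟨W, hWd⟩ : ∃ W, W = ∫ v in (a * L)..((a + 1 + 6 * η) * L), (PPair kW v (Z0 (8 * T)) mz).re :=
    ⟨_, rfl⟩
  obtain ⟨E, hEd⟩ : ∃ E, E = ∫ v in (a * L)..((a + 1 + 6 * η) * L), ‖ES (Z0 (8 * T)) mz v‖ ^ 2 :=
    ⟨_, rfl⟩
  rw [← hWd, ← hEd] at hW
  rw [← hEd] at hPl
  rw [← hWd]
  have h1 : c * T * L ^ 2 ≤ 2 * (2 * Real.pi * E) + 8 * T := by
    refine hcore.trans (hint.trans ?_)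
    linarith
  have h2 : 2 * (2 * Real.pi * E) ≤ 8 * Real.pi * Real.exp 2 * W := by
    calc 2 * (2 * Real.pi * E) = 4 * Real.pi * E := by ring
      _ ≤ 4 * Real.pi * (2 * Real.exp 2 * W) := mul_le_mul_of_nonneg_left hW (by positivity)
      _ = _ := by ring
  have h3 : 8 * T ≤ c * T * L ^ 2 / 2 := by
    have h4 : 16 * T ≤ (L * c) * T := mul_le_mul_of_nonneg_right hLc hT0.le
    have h5 : (L * c) * T ≤ (L * c) * T * L := le_mul_of_one_le_right (by positivity) hL1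
    have e : (L * c) * T * L = c * T * L ^ 2 := by ring
    linarith
  have h4 : c * T * L ^ 2 ≤ 16 * Real.pi * Real.exp 2 * W := by
    have e : 16 * Real.pi * Real.exp 2 * W = 2 * (8 * Real.pi * Real.exp 2 * W) := by ring
    linarith
  have h5 : c / (16 * Real.pi * Real.exp 2) * T * L ^ 2 = c * T * L ^ 2 / (16 * Real.pi * Real.exp 2) := by
    ring
  rw [h5, div_le_iff₀ (by positivity)]
  linarith

/-- the window theorem for the pair sum -/
theorem window_alpha (x ε : ℝ) (hx : 1 ≤ x) (hε : 0 < ε) :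
    ∃ c T₀ : ℝ, 0 < c ∧ 2 ≤ T₀ ∧ ∀ T : ℝ, T₀ ≤ T →
      c * (T / (2 * Real.pi) * Real.log T) ≤ ∫ α in x..(x + 1 + ε), PW T (α * Real.log T) := by
  obtain ⟨η, hη⟩ : ∃ η : ℝ, η = min 1 (ε / 8) := ⟨_, rfl⟩
  have hη0 : 0 < η := by
    rw [hη]
    exact lt_min one_pos (by positivity)
  have hη1 : η ≤ 1 := by rw [hη]; exact min_le_left _ _
  have hηε : 8 * η ≤ ε := by
    have : η ≤ ε / 8 := by rw [hη]; exact min_le_right _ _
    linarith
  obtain ⟨a, ha⟩ : ∃ a : ℝ, a = x + 2 * η := ⟨_, rfl⟩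
  obtain ⟨c, T₁, hc, hw⟩ := window_v a η (by linarith) hη0 hη1
  obtain ⟨T₂, hT₂⟩ := ev_log (max (2 * Real.log 8) (a * Real.log 8 / η))
  have hpi := Real.pi_pos
  refine ⟨c / 32 * (2 * Real.pi), max (8 * T₁) (max T₂ 2), by positivity,
    (le_max_right _ _).trans (le_max_right _ _), fun T hT => ?_⟩
  simp only [max_le_iff] at hT
  obtain ⟨hTT1, hTT2, hT2⟩ := hT
  have hT0 : 0 < T := by linarith
  have hLL := hT₂ T hTT2
  simp only [max_le_iff] at hLL
  obtain ⟨hL8, hLa⟩ := hLL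
  obtain ⟨L, hL⟩ : ∃ L : ℝ, L = Real.log T := ⟨_, rfl⟩
  rw [← hL] at hL8 hLa ⊢
  have hl8 : 0 < Real.log 8 := Real.log_pos (by norm_num)
  have hL0 : 0 < L := by linarith
  rw [div_le_iff₀ hη0] at hLa
  have h1 := hw (T / 8) (by linarith)
  have e1 : 8 * (T / 8) = T := by ring
  have e2 : Real.log (T / 8) = L - Real.log 8 := by
    rw [Real.log_div hT0.ne' (by norm_num), hL]
  rw [e1, e2] at h1
  have hsub : ∫ v in (a * (L - Real.log 8))..((a + 1 + 6 * η) * (L - Real.log 8)), PW T v ≤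
      ∫ v in (x * L)..((x + 1 + ε) * L), PW T v := by
    apply intervalIntegral.integral_mono_interval
    · rw [ha]
      rw [ha] at hLa
      nlinarith
    · apply mul_le_mul_of_nonneg_right _ (by linarith)
      linarith
    · rw [ha]
      have : (x + 2 * η + 1 + 6 * η) * (L - Real.log 8) ≤ (x + 2 * η + 1 + 6 * η) * L := by
        apply mul_le_mul_of_nonneg_left _ (by linarith)
        linarith
      refine this.trans ?_
      apply mul_le_mul_of_nonneg_right _ hL0.le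
      linarith
    · exact Eventually.of_forall fun v => PW_nonneg' T v
    · exact (PW_cont' T).intervalIntegrable _ _
  have hcv : ∫ v in (x * L)..((x + 1 + ε) * L), PW T v =
      L * ∫ α in x..(x + 1 + ε), PW T (α * L) := by
    have := intervalIntegral.mul_integral_comp_mul_right (f := PW T) (a := x) (b := x + 1 + ε) L
    rw [← this]
  rw [hcv] at hsub
  obtain ⟨Y, hY⟩ : ∃ Y, Y = ∫ α in x..(x + 1 + ε), PW T (α * L) := ⟨_, rfl⟩
  rw [← hY] at hsub ⊢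
  have h3 : L / 2 ≤ L - Real.log 8 := by linarith
  have h4 : (L / 2) ^ 2 ≤ (L - Real.log 8) ^ 2 := pow_le_pow_left₀ (by linarith) h3 2
  have h5 : c * (T / 8) * (L / 2) ^ 2 ≤ L * Y :=
    (mul_le_mul_of_nonneg_left h4 (by positivity)).trans (h1.trans hsub)
  have h6 : L * (c / 32 * T * L) ≤ L * Y := by
    refine le_trans (le_of_eq ?_) h5
    ring
  have h7 := le_of_mul_le_mul_left h6 hL0
  refine le_trans (le_of_eq ?_) h7
  field_simp

end Pool.Agent.D0H44.FW
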