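import Pool.Agent.Y857.VP.VA
import Pool.Agent.H448R2.GC.K2
import Pool.Agent.H448R2.GC.K3

/-! The Laplace transform of the window weight. -/

set_option autoImplicit false

namespace Pool.Agent.D0H44.FW

open Complex MeasureTheory Filter Topology
open Pool.Agent.H448R2.GC (cu Ps ker)
open Pool.Agent.Y857.VP.VA (be)

/-- the Laplace transform of `be k c p q` -/
noncomputable def KF (k : ℕ) (c p q : ℝ) (z : ℂ) : ℂ :=
  ((q - p : ℝ) : ℂ) * cexp (p * z) * (∫ t in (0 : ℝ)..1, cexp (((q - p : ℝ) : ℂ) * z * t)) * Ps k c z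

theorem be_meas (k : ℕ) (c p q : ℝ) (hc : 0 < c) : Measurable (be k c p q) := by
  have h := (Pool.Agent.H448R2.GC.cu_anti k c hc).measurable
  unfold Pool.Agent.Y857.VP.VA.be
  exact (h.comp (by fun_prop)).sub (h.comp (by fun_prop))

theorem be_int (k : ℕ) (c p q : ℝ) (hc : 0 < c) (hpq : p ≤ q) (z : ℂ) :
    Integrable (fun v : ℝ => ((be k c p q v : ℝ) : ℂ) * cexp (v * z)) := by
  have h1 : Integrable (Set.indicator (Set.Icc p (q + k * c)) (fun v : ℝ => cexp (v * z))) := by
    rw [integrable_indicator_iff measurableSet_Icc]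
    apply Continuous.integrableOn_Icc
    fun_prop
  refine h1.mono ?_ ?_
  · apply Measurable.aestronglyMeasurable
    have := be_meas k c p q hc
    fun_prop
  · refine Eventually.of_forall fun v => ?_
    by_cases hv : v ∈ Set.Icc p (q + k * c)
    · rw [Set.indicator_of_mem hv, norm_mul, Complex.norm_real]
      exact mul_le_of_le_one_left (norm_nonneg _) (Pool.Agent.Y857.VP.VA.be_abs hc)
    · rw [Set.mem_Icc, not_and_or, not_le, not_le] at hv
      have h0 : be k c p q v = 0 := by
        rcases hv with hv | hv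
        · exact Pool.Agent.Y857.VP.VA.be_zero_left hc hpq hv.le
        · exact Pool.Agent.Y857.VP.VA.be_zero_right hc hpq hv
      rw [h0]
      simp

theorem be_succ (k : ℕ) (c p q v : ℝ) (hc : 0 < c) :
    be (k + 1) c p q v = (1 / c) * ∫ τ in (0 : ℝ)..c, be k c p q (v - τ) := by
  have hI : ∀ r : ℝ, IntervalIntegrable (fun τ => cu k c (r - τ)) volume 0 c := by
    intro r
    have h := Pool.Agent.H448R2.GC.cu_anti k c hc
    have h2 : Monotone (fun τ => cu k c (r - τ)) := fun a b hab => h (by linarith)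
    exact h2.intervalIntegrable
  have h1 : ∀ r : ℝ, cu (k + 1) c r = (1 / c) * ∫ τ in (0 : ℝ)..c, cu k c (r - τ) := fun r => rfl
  unfold Pool.Agent.Y857.VP.VA.be
  rw [h1, h1, ← mul_sub, ← intervalIntegral.integral_sub (hI _) (hI _)]
  congr 1
  apply intervalIntegral.integral_congr
  intro τ _
  simp only
  congr 2 <;> ring

theorem J_scale (c : ℝ) (hc : 0 < c) (z : ℂ) :
    (∫ t in (0 : ℝ)..1, cexp (c * z * t)) = (1 / c : ℝ) * ∫ τ in (0 : ℝ)..c, cexp (τ * z) := by
  have h := intervalIntegral.integral_comp_mul_left (a := 0) (b := 1)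
    (fun u : ℝ => cexp (u * z)) hc.ne'
  simp only [mul_zero, mul_one] at h
  have e : ∀ t : ℝ, cexp (((c * t : ℝ) : ℂ) * z) = cexp (c * z * t) := by
    intro t
    congr 1
    push_cast
    ring
  simp only [e] at h
  rw [h, Complex.real_smul, one_div]

theorem be_laplace (k : ℕ) (c p q : ℝ) (hc : 0 < c) (hpq : p ≤ q) (z : ℂ) :
    ∫ v : ℝ, ((be k c p q v : ℝ) : ℂ) * cexp (v * z) = KF k c p q z := by
  induction k with
  | zero =>
    have h1 : ∀ v : ℝ, ((be 0 c p q v : ℝ) : ℂ) * cexp (v * z) =
        Set.indicator (Set.Ioc p q) (fun v : ℝ => cexp (v * z)) v := by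
      intro v
      have h2 : be 0 c p q v = if v ∈ Set.Ioc p q then 1 else 0 := by
        unfold Pool.Agent.Y857.VP.VA.be Pool.Agent.H448R2.GC.cu
        by_cases hv1 : v ≤ p
        · have hv2 : v ≤ q := hv1.trans hpq
          rw [if_pos (by linarith), if_pos (by linarith), if_neg (fun h => by
            have := h.1
            linarith)]
          ring
        · push Not at hv1
          by_cases hv2 : v ≤ q
          · rw [if_pos (by linarith), if_neg (by linarith), if_pos ⟨hv1, hv2⟩]
            ring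
          · push Not at hv2
            rw [if_neg (by linarith), if_neg (by linarith), if_neg (fun h => by
              have := h.2
              linarith)]
            ring
      rw [h2]
      by_cases hv : v ∈ Set.Ioc p q
      · rw [Set.indicator_of_mem hv, if_pos hv]
        simp
      · rw [Set.indicator_of_notMem hv, if_neg hv]
        simp
    simp only [h1]
    rw [integral_indicator measurableSet_Ioc, ← intervalIntegral.integral_of_le hpq]
    unfold KF Pool.Agent.H448R2.GC.Ps
    rw [pow_zero, mul_one]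
    have h2 := intervalIntegral.smul_integral_comp_mul_add (a := 0) (b := 1)
      (fun v : ℝ => cexp (v * z)) (q - p) p
    rw [mul_zero, zero_add, mul_one, sub_add_cancel] at h2
    rw [← h2, Complex.real_smul, mul_assoc]
    congr 1
    rw [← intervalIntegral.integral_const_mul]
    apply intervalIntegral.integral_congr
    intro t _
    simp only
    rw [← Complex.exp_add]
    congr 1
    push_cast
    ring
  | succ k ih =>
    have hB : q + (k : ℝ) * c ≤ q + ((k + 1 : ℕ) : ℝ) * c := by
      push_cast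
      linarith
    obtain ⟨M, hM⟩ : ∃ M : ℝ, ∀ v ∈ Set.Icc p (q + ((k + 1 : ℕ) : ℝ) * c), ‖cexp ((v : ℂ) * z)‖ ≤ M := by
      have hc2 : Continuous (fun v : ℝ => cexp ((v : ℂ) * z)) := by fun_prop
      obtain ⟨M, hM⟩ := (isCompact_Icc (a := p) (b := q + ((k + 1 : ℕ) : ℝ) * c)).exists_bound_of_continuousOn
        hc2.continuousOn
      exact ⟨M, hM⟩
    have hfin : IsFiniteMeasure (volume.restrict (Set.Ioc (0 : ℝ) c)) := ⟨by simp⟩
    have hint : Integrable (Function.uncurry (fun v τ : ℝ => ((be k c p q (v - τ) : ℝ) : ℂ) *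
        cexp (v * z))) (volume.prod (volume.restrict (Set.Ioc (0 : ℝ) c))) := by
      have h1 : Integrable (Set.indicator (Set.Icc p (q + ((k + 1 : ℕ) : ℝ) * c)) (fun _ : ℝ => M)) := by
        rw [integrable_indicator_iff measurableSet_Icc]
        exact integrableOn_const (by simp)
      have h2 : Integrable (fun x : ℝ × ℝ =>
          Set.indicator (Set.Icc p (q + ((k + 1 : ℕ) : ℝ) * c)) (fun _ : ℝ => M) x.1)
          (volume.prod (volume.restrict (Set.Ioc (0 : ℝ) c))) := h1.comp_fst _
      refine h2.mono' ?_ ?_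
      · apply Measurable.aestronglyMeasurable
        have h3 := be_meas k c p q hc
        unfold Function.uncurry
        fun_prop
      · have h4 : ∀ᵐ x : ℝ × ℝ ∂(volume.prod (volume.restrict (Set.Ioc (0 : ℝ) c))),
            x.2 ∈ Set.Ioc (0 : ℝ) c := by
          have : (volume : Measure ℝ).prod (volume.restrict (Set.Ioc (0 : ℝ) c)) =
              ((volume : Measure ℝ).prod volume).restrict (Set.univ ×ˢ Set.Ioc (0 : ℝ) c) := by
            rw [← Measure.prod_restrict, Measure.restrict_univ]
          rw [this]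
          filter_upwards [ae_restrict_mem (MeasurableSet.univ.prod measurableSet_Ioc)] with x hx
          exact hx.2
        filter_upwards [h4] with x hx
        show ‖((be k c p q (x.1 - x.2) : ℝ) : ℂ) * cexp (x.1 * z)‖ ≤ _
        by_cases hv : x.1 ∈ Set.Icc p (q + ((k + 1 : ℕ) : ℝ) * c)
        · rw [Set.indicator_of_mem hv, norm_mul, Complex.norm_real]
          calc _ ≤ 1 * M := mul_le_mul (Pool.Agent.Y857.VP.VA.be_abs hc) (hM _ hv) (norm_nonneg _)
                zero_le_one
            _ = M := one_mul _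
        · have h0 : be k c p q (x.1 - x.2) = 0 := by
            rw [Set.mem_Icc, not_and_or, not_le, not_le] at hv
            rcases hv with hv | hv
            · apply Pool.Agent.Y857.VP.VA.be_zero_left hc hpq
              have := hx.1
              linarith
            · apply Pool.Agent.Y857.VP.VA.be_zero_right hc hpq
              push_cast at hv
              have := hx.2
              linarith
          rw [h0, Set.indicator_of_notMem hv]
          simp
    have h1 : ∀ v : ℝ, ((be (k + 1) c p q v : ℝ) : ℂ) * cexp (v * z) =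
        (1 / c : ℝ) * ∫ τ in Set.Ioc (0 : ℝ) c, ((be k c p q (v - τ) : ℝ) : ℂ) * cexp (v * z) := by
      intro v
      rw [be_succ k c p q v hc, intervalIntegral.integral_of_le hc.le, integral_mul_const,
        Complex.ofReal_mul, integral_complex_ofReal, mul_assoc]
    simp only [h1]
    rw [integral_const_mul, integral_integral_swap hint]
    have h2 : ∀ τ : ℝ, ∫ v : ℝ, ((be k c p q (v - τ) : ℝ) : ℂ) * cexp (v * z) =
        cexp (τ * z) * KF k c p q z := by
      intro τ
      have h3 := integral_sub_right_eq_self (μ := (volume : Measure ℝ))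
        (fun v : ℝ => ((be k c p q v : ℝ) : ℂ) * cexp (((v + τ : ℝ) : ℂ) * z)) τ
      simp only [sub_add_cancel] at h3
      rw [h3, ← ih, ← integral_const_mul]
      congr 1
      funext v
      rw [mul_left_comm, ← Complex.exp_add]
      congr 2
      push_cast
      ring
    simp only [h2]
    rw [integral_mul_const, ← intervalIntegral.integral_of_le hc.le]
    have h4 := J_scale c hc z
    have h5 : KF (k + 1) c p q z = (∫ t in (0 : ℝ)..1, cexp (c * z * t)) * KF k c p q z := by
      unfold KF Pool.Agent.H448R2.GC.Ps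
      rw [pow_succ]
      ring
    rw [h5, h4]
    ring

theorem KF_entire (k : ℕ) (c p q : ℝ) : Differentiable ℂ (KF k c p q) := by
  unfold KF
  have h1 := Pool.Agent.H448R2.GC.Ps_entire k c
  have h2 := Pool.Agent.H448R2.GC.Ps_entire 1 (q - p)
  unfold Pool.Agent.H448R2.GC.Ps at h2
  simp only [pow_one] at h2
  exact (((differentiable_const _).mul (by fun_prop)).mul h2).mul h1

theorem KF_ker (k : ℕ) (c p q x y : ℝ) (h : (x : ℂ) + (y : ℂ) * I ≠ 0) :
    KF k c p q ((x : ℂ) + (y : ℂ) * I) = ker k c q x y - ker k c p x y := by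
  unfold KF Pool.Agent.H448R2.GC.ker
  obtain ⟨z, hz⟩ : ∃ z : ℂ, z = (x : ℂ) + (y : ℂ) * I := ⟨_, rfl⟩
  rw [← hz] at h ⊢
  rcases eq_or_ne p q with hpq | hpq
  · rw [hpq]
    simp
  · have hc : ((q - p : ℝ) : ℂ) ≠ 0 := by
      rw [Complex.ofReal_ne_zero]
      intro h'
      apply hpq
      linarith
    rw [integral_exp_mul_complex (mul_ne_zero hc h)]
    have e1 : cexp (q * z) = cexp (p * z) * cexp (((q - p : ℝ) : ℂ) * z) := by
      rw [← Complex.exp_add]
      congr 1
      push_cast
      ring
    rw [e1]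
    simp only [Complex.ofReal_one, mul_one, Complex.ofReal_zero, mul_zero, Complex.exp_zero]
    field_simp

theorem KF_bound (k : ℕ) (c p q : ℝ) (hc : 0 < c) (hp : 0 ≤ p) (hpq : p ≤ q) (z : ℂ) (hz : z ≠ 0) :
    ‖KF k c p q z‖ ≤ 2 * Real.exp ((q + k * c) * max z.re 0 + p * min z.re 0) *
      (3 / (1 + c * ‖z‖)) ^ k / ‖z‖ := by
  have hz' : z = (z.re : ℂ) + (z.im : ℂ) * I := (Complex.re_add_im z).symm
  have h1 := KF_ker k c p q z.re z.im (by rw [← hz']; exact hz)
  have h2 := Pool.Agent.H448R2.GC.ker_bound k c q z.re z.im hc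
  have h3 := Pool.Agent.H448R2.GC.ker_bound k c p z.re z.im hc
  rw [← hz'] at h1 h2 h3
  rw [h1]
  have hzn : 0 < ‖z‖ := norm_pos_iff.2 hz
  have hm : max z.re 0 + min z.re 0 = z.re := by
    rcases le_total z.re 0 with h | h
    · rw [max_eq_right h, min_eq_left h]; ring
    · rw [max_eq_left h, min_eq_right h]; ring
  have hmax : 0 ≤ max z.re 0 := le_max_right _ _
  have hmin : min z.re 0 ≤ 0 := min_le_right _ _
  have e2 : q * z.re + k * c * max z.re 0 ≤ (q + k * c) * max z.re 0 + p * min z.re 0 := by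
    nlinarith [mul_nonneg (sub_nonneg.2 hpq) (neg_nonneg.2 hmin)]
  have e3 : p * z.re + k * c * max z.re 0 ≤ (q + k * c) * max z.re 0 + p * min z.re 0 := by
    nlinarith [mul_nonneg (sub_nonneg.2 hpq) hmax]
  have h4 : ∀ E : ℝ, E ≤ (q + k * c) * max z.re 0 + p * min z.re 0 →
      Real.exp E * (3 / (1 + c * ‖z‖)) ^ k / ‖z‖ ≤
      Real.exp ((q + k * c) * max z.re 0 + p * min z.re 0) * (3 / (1 + c * ‖z‖)) ^ k / ‖z‖ := by
    intro E hE
    have : 0 ≤ (3 / (1 + c * ‖z‖)) ^ k := by positivity
    apply div_le_div_of_nonneg_right _ hzn.le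
    exact mul_le_mul_of_nonneg_right (Real.exp_le_exp.2 hE) this
  refine (norm_sub_le _ _).trans ((add_le_add (h2.trans (h4 _ e2)) (h3.trans (h4 _ e3))).trans
    (le_of_eq ?_))
  ring

end Pool.Agent.D0H44.FW
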