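import Pool.Agent.D0H44.FW.Ker
import Pool.Agent.H448R2.GC.PL
import Pool.Agent.H343R2.ZPair

/-! Pair sums over zeros and window polynomials. -/

set_option autoImplicit false

namespace Pool.Agent.D0H44.FW

open Complex MeasureTheory Filter Topology
open scoped FourierTransform
open Pool.Agent.H448R2.GC (cu Ps ker)
open Pool.Agent.H448R2.GC.PL (planch_h)
open Pool.Agent.Y857.VP.VA (be)
open H343 (PPair kW)

/-- the exponential sum over the zeros -/
noncomputable def ES (Z : Finset ℂ) (m : ℂ → ℝ) (v : ℝ) : ℂ :=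
  ∑ s ∈ Z, ((m s : ℝ) : ℂ) * cexp (v * (s - 1 / 2))

theorem ES_cont (Z : Finset ℂ) (m : ℂ → ℝ) : Continuous (ES Z m) := by
  unfold ES
  fun_prop

/-- the window polynomial on the side of the zeros -/
noncomputable def KS (k : ℕ) (c p q : ℝ) (Z : Finset ℂ) (m : ℂ → ℝ) (t : ℝ) : ℂ :=
  ∑ s ∈ Z, ((m s : ℝ) : ℂ) * KF k c p q (s - 1 / 2 - (t : ℂ) * I)

theorem KS_cont (k : ℕ) (c p q : ℝ) (Z : Finset ℂ) (m : ℂ → ℝ) : Continuous (KS k c p q Z m) := by
  unfold KS
  have h := (KF_entire k c p q).continuous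
  fun_prop

theorem be_ES_int (k : ℕ) (c p q : ℝ) (hc : 0 < c) (hpq : p ≤ q) (Z : Finset ℂ) (m : ℂ → ℝ) :
    Integrable (fun v : ℝ => ((be k c p q v : ℝ) : ℂ) * ES Z m v) := by
  have e : (fun v : ℝ => ((be k c p q v : ℝ) : ℂ) * ES Z m v) = fun v : ℝ =>
      ∑ s ∈ Z, ((m s : ℝ) : ℂ) * (((be k c p q v : ℝ) : ℂ) * cexp (v * (s - 1 / 2))) := by
    funext v
    unfold ES
    rw [Finset.mul_sum]
    apply Finset.sum_congr rfl
    intro s _
    ring
  rw [e]
  apply integrable_finsetSum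
  intro s _
  exact (be_int k c p q hc hpq _).const_mul _

theorem be_ES_memLp (k : ℕ) (c p q : ℝ) (hc : 0 < c) (hpq : p ≤ q) (Z : Finset ℂ) (m : ℂ → ℝ) :
    MemLp (fun v : ℝ => ((be k c p q v : ℝ) : ℂ) * ES Z m v) 2 volume := by
  have h1 : MemLp (Set.indicator (Set.Icc p (q + k * c)) (ES Z m)) 2 volume := by
    rw [memLp_indicator_iff_restrict measurableSet_Icc]
    have : IsFiniteMeasure (volume.restrict (Set.Icc p (q + k * c))) := ⟨by simp⟩
    obtain ⟨M, hM⟩ := (isCompact_Icc (a := p) (b := q + k * c)).exists_bound_of_continuousOn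
      (ES_cont Z m).continuousOn
    apply MemLp.of_bound (C := M)
    · exact (ES_cont Z m).aestronglyMeasurable
    · rw [ae_restrict_iff' measurableSet_Icc]
      exact Eventually.of_forall fun u hu => hM u hu
  refine h1.mono ?_ ?_
  · exact (be_ES_int k c p q hc hpq Z m).1
  · refine Eventually.of_forall fun v => ?_
    by_cases hv : v ∈ Set.Icc p (q + k * c)
    · rw [Set.indicator_of_mem hv, norm_mul, Complex.norm_real]
      exact mul_le_of_le_one_left (norm_nonneg _) (Pool.Agent.Y857.VP.VA.be_abs hc)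
    · rw [Set.mem_Icc, not_and_or, not_le, not_le] at hv
      have h0 : be k c p q v = 0 := by
        rcases hv with hv | hv
        · exact Pool.Agent.Y857.VP.VA.be_zero_left hc hpq hv.le
        · exact Pool.Agent.Y857.VP.VA.be_zero_right hc hpq hv
      rw [h0]
      simp

theorem be_ES_fourier (k : ℕ) (c p q : ℝ) (hc : 0 < c) (hpq : p ≤ q) (Z : Finset ℂ) (m : ℂ → ℝ)
    (ξ : ℝ) : 𝓕 (fun v : ℝ => ((be k c p q v : ℝ) : ℂ) * ES Z m v) ξ =
      KS k c p q Z m (2 * Real.pi * ξ) := by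
  rw [Real.fourier_eq']
  unfold KS
  have e1 : ∀ v : ℝ, cexp (((-2 * Real.pi * inner ℝ v ξ : ℝ) : ℂ) * I) •
      (((be k c p q v : ℝ) : ℂ) * ES Z m v) =
      ∑ s ∈ Z, ((m s : ℝ) : ℂ) * (((be k c p q v : ℝ) : ℂ) *
        cexp (v * (s - 1 / 2 - ((2 * Real.pi * ξ : ℝ) : ℂ) * I))) := by
    intro v
    unfold ES
    rw [smul_eq_mul, Finset.mul_sum, Finset.mul_sum]
    apply Finset.sum_congr rfl
    intro s _
    have e2 : cexp (v * (s - 1 / 2 - ((2 * Real.pi * ξ : ℝ) : ℂ) * I)) =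
        cexp (((-2 * Real.pi * inner ℝ v ξ : ℝ) : ℂ) * I) * cexp (v * (s - 1 / 2)) := by
      rw [← Complex.exp_add]
      congr 1
      simp only [RCLike.inner_apply, conj_trivial]
      push_cast
      ring
    rw [e2]
    ring
  simp_rw [e1]
  rw [integral_finsetSum]
  · apply Finset.sum_congr rfl
    intro s _
    rw [integral_const_mul, be_laplace k c p q hc hpq]
  · intro s _
    exact (be_int k c p q hc hpq _).const_mul _

theorem planch_Z (k : ℕ) (c p q : ℝ) (hc : 0 < c) (hpq : p ≤ q) (Z : Finset ℂ) (m : ℂ → ℝ)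
    (A B : ℝ) (hAB : A ≤ B) :
    ∫ t in A..B, ‖KS k c p q Z m t‖ ^ 2 ≤
      2 * Real.pi * ∫ v in p..(q + k * c), ‖ES Z m v‖ ^ 2 := by
  have hpi := Real.pi_pos
  have hkc : 0 ≤ (k : ℝ) * c := by positivity
  obtain ⟨hPi, hPe⟩ := planch_h _ (be_ES_int k c p q hc hpq Z m) (be_ES_memLp k c p q hc hpq Z m)
  have h2 : ∫ v : ℝ, ‖((be k c p q v : ℝ) : ℂ) * ES Z m v‖ ^ 2 ≤
      ∫ v in p..(q + k * c), ‖ES Z m v‖ ^ 2 := by
    rw [intervalIntegral.integral_of_le (by linarith), ← integral_Icc_eq_integral_Ioc,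
      ← integral_indicator measurableSet_Icc]
    apply integral_mono
    · exact (memLp_two_iff_integrable_sq_norm (be_ES_memLp k c p q hc hpq Z m).1).1
        (be_ES_memLp k c p q hc hpq Z m)
    · rw [integrable_indicator_iff measurableSet_Icc]
      exact ((ES_cont Z m).norm.pow 2).integrableOn_Icc
    · intro v
      simp only
      by_cases hv : v ∈ Set.Icc p (q + k * c)
      · rw [Set.indicator_of_mem hv]
        apply pow_le_pow_left₀ (norm_nonneg _)
        rw [norm_mul, Complex.norm_real]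
        exact mul_le_of_le_one_left (norm_nonneg _) (Pool.Agent.Y857.VP.VA.be_abs hc)
      · rw [Set.indicator_of_notMem hv]
        rw [Set.mem_Icc, not_and_or, not_le, not_le] at hv
        have h0 : be k c p q v = 0 := by
          rcases hv with hv | hv
          · exact Pool.Agent.Y857.VP.VA.be_zero_left hc hpq hv.le
          · exact Pool.Agent.Y857.VP.VA.be_zero_right hc hpq hv
        rw [h0]
        simp
  rw [← hPe] at h2
  have e1 : ∫ t in A..B, ‖KS k c p q Z m t‖ ^ 2 =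
      (2 * Real.pi) * ∫ ξ in (A / (2 * Real.pi))..(B / (2 * Real.pi)),
        ‖𝓕 (fun v : ℝ => ((be k c p q v : ℝ) : ℂ) * ES Z m v) ξ‖ ^ 2 := by
    have := intervalIntegral.smul_integral_comp_mul_left (a := A / (2 * Real.pi))
      (b := B / (2 * Real.pi)) (fun t : ℝ => ‖KS k c p q Z m t‖ ^ 2) (2 * Real.pi)
    rw [smul_eq_mul] at this
    simp only [be_ES_fourier k c p q hc hpq Z m]
    rw [this]
    congr 1 <;> field_simp
  rw [e1]
  apply mul_le_mul_of_nonneg_left _ (by positivity)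
  refine le_trans ?_ h2
  have hab : A / (2 * Real.pi) ≤ B / (2 * Real.pi) := by
    rw [div_le_div_iff_of_pos_right (by positivity)]
    exact hAB
  rw [intervalIntegral.integral_of_le hab]
  exact setIntegral_le_integral hPi (Eventually.of_forall fun _ => by positivity)

theorem normSq_ES (v : ℝ) (Z : Finset ℂ) (m : ℂ → ℝ) :
    ((‖ES Z m v‖ ^ 2 : ℝ) : ℂ) =
      ∑ s ∈ Z, ∑ s' ∈ Z, ((m s * m s' : ℝ) : ℂ) * cexp (v * (s + (starRingEnd ℂ) s' - 1)) := by
  rw [← Complex.normSq_eq_norm_sq, Complex.normSq_eq_conj_mul_self, mul_comm]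
  unfold ES
  rw [map_sum, Finset.sum_mul_sum]
  refine Finset.sum_congr rfl fun s _ => Finset.sum_congr rfl fun s' _ => ?_
  rw [map_mul, Complex.conj_ofReal, ← Complex.exp_conj]
  have e : cexp (v * (s + (starRingEnd ℂ) s' - 1)) =
      cexp (v * (s - 1 / 2)) * cexp ((starRingEnd ℂ) (v * (s' - 1 / 2))) := by
    rw [← Complex.exp_add]
    congr 1
    simp only [map_mul, map_sub, map_div₀, map_one, map_ofNat, Complex.conj_ofReal]
    ring
  rw [e]
  push_cast
  ring

theorem pairW_eq (u : ℝ) (Z : Finset ℂ) (m : ℂ → ℝ) (hZ : ∀ s ∈ Z, 0 < s.re ∧ s.re < 1) :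
    Integrable (fun a : ℝ => Real.exp (-2 * |a|) * ‖ES Z m (u + a)‖ ^ 2) ∧
    PPair kW u Z m = ((∫ a : ℝ, Real.exp (-2 * |a|) * ‖ES Z m (u + a)‖ ^ 2 : ℝ) : ℂ) := by
  have hz : ∀ s ∈ Z, ∀ s' ∈ Z, -2 < (s + (starRingEnd ℂ) s' - 1).re ∧
      (s + (starRingEnd ℂ) s' - 1).re < 2 := by
    intro s hs s' hs'
    have := hZ s hs
    have := hZ s' hs'
    simp only [Complex.sub_re, Complex.add_re, Complex.conj_re, Complex.one_re]
    constructor <;> linarith
  have e1 : ∀ a : ℝ, ((Real.exp (-2 * |a|) * ‖ES Z m (u + a)‖ ^ 2 : ℝ) : ℂ) =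
      ∑ s ∈ Z, ∑ s' ∈ Z, (((m s * m s' : ℝ) : ℂ) * cexp (u * (s + (starRingEnd ℂ) s' - 1))) *
        (((Real.exp (-2 * |a|) : ℝ) : ℂ) * cexp (a * (s + (starRingEnd ℂ) s' - 1))) := by
    intro a
    rw [Complex.ofReal_mul, normSq_ES, Finset.mul_sum]
    refine Finset.sum_congr rfl fun s _ => ?_
    rw [Finset.mul_sum]
    refine Finset.sum_congr rfl fun s' _ => ?_
    have e : cexp (((u + a : ℝ) : ℂ) * (s + (starRingEnd ℂ) s' - 1)) =
        cexp (u * (s + (starRingEnd ℂ) s' - 1)) * cexp (a * (s + (starRingEnd ℂ) s' - 1)) := by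
      rw [← Complex.exp_add]
      congr 1
      push_cast
      ring
    rw [e]
    ring
  have hterm : ∀ s ∈ Z, ∀ s' ∈ Z, Integrable (fun a : ℝ =>
      (((m s * m s' : ℝ) : ℂ) * cexp (u * (s + (starRingEnd ℂ) s' - 1))) *
        (((Real.exp (-2 * |a|) : ℝ) : ℂ) * cexp (a * (s + (starRingEnd ℂ) s' - 1)))) := by
    intro s hs s' hs'
    exact (H343.integrable_laplace _ (hz s hs s' hs').1 (hz s hs s' hs').2).1.const_mul _
  have hint : Integrable (fun a : ℝ => ((Real.exp (-2 * |a|) * ‖ES Z m (u + a)‖ ^ 2 : ℝ) : ℂ)) := by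
    simp_rw [e1]
    exact integrable_finsetSum _ fun s hs => integrable_finsetSum _ fun s' hs' => hterm s hs s' hs'
  refine ⟨hint.re, ?_⟩
  rw [← integral_complex_ofReal]
  simp_rw [e1]
  rw [integral_finsetSum _ fun s hs => integrable_finsetSum _ fun s' hs' => hterm s hs s' hs']
  unfold PPair
  refine Finset.sum_congr rfl fun s hs => ?_
  rw [integral_finsetSum _ fun s' hs' => hterm s hs s' hs']
  refine Finset.sum_congr rfl fun s' hs' => ?_
  rw [integral_const_mul, (H343.integrable_laplace _ (hz s hs s' hs').1 (hz s hs s' hs').2).2]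
  unfold H343.kW
  ring

theorem PW_cont (Z : Finset ℂ) (m : ℂ → ℝ) : Continuous (fun v : ℝ => (PPair kW v Z m).re) := by
  unfold H343.PPair
  apply Complex.continuous_re.comp
  fun_prop

theorem PW_nonneg (u : ℝ) (Z : Finset ℂ) (m : ℂ → ℝ) (hZ : ∀ s ∈ Z, 0 < s.re ∧ s.re < 1) :
    0 ≤ (PPair kW u Z m).re := by
  rw [(pairW_eq u Z m hZ).2, Complex.ofReal_re]
  exact integral_nonneg fun a => by positivity

theorem PW_lower (u : ℝ) (Z : Finset ℂ) (m : ℂ → ℝ) (hZ : ∀ s ∈ Z, 0 < s.re ∧ s.re < 1) :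
    Real.exp (-2) * (∫ a in (-1 : ℝ)..1, ‖ES Z m (u + a)‖ ^ 2) ≤ (PPair kW u Z m).re := by
  obtain ⟨h1, h2⟩ := pairW_eq u Z m hZ
  rw [h2, Complex.ofReal_re]
  have h3 : ∫ a in (-1 : ℝ)..1, Real.exp (-2 * |a|) * ‖ES Z m (u + a)‖ ^ 2 ≤
      ∫ a : ℝ, Real.exp (-2 * |a|) * ‖ES Z m (u + a)‖ ^ 2 := by
    rw [intervalIntegral.integral_of_le (by norm_num)]
    exact setIntegral_le_integral h1 (Eventually.of_forall fun _ => by positivity)
  refine le_trans ?_ h3
  rw [← intervalIntegral.integral_const_mul]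
  have hE := ES_cont Z m
  apply intervalIntegral.integral_mono_on (by norm_num)
  · exact Continuous.intervalIntegrable (by fun_prop) _ _
  · exact Continuous.intervalIntegrable (by fun_prop) _ _
  · intro a ha
    apply mul_le_mul_of_nonneg_right _ (by positivity)
    apply Real.exp_le_exp.2
    have : |a| ≤ 1 := abs_le.2 ⟨ha.1, ha.2⟩
    linarith

theorem swap_av (f : ℝ → ℝ) (hf : Continuous f) (A B : ℝ) (hAB : A ≤ B) :
    ∫ v in A..B, ∫ a in (-1 : ℝ)..1, f (v + a) = ∫ a in (-1 : ℝ)..1, ∫ v in A..B, f (v + a) := by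
  have h1 : (-1 : ℝ) ≤ 1 := by norm_num
  simp only [intervalIntegral.integral_of_le hAB, intervalIntegral.integral_of_le h1]
  apply integral_integral_swap
  have hcc : Continuous (Function.uncurry (fun v a : ℝ => f (v + a))) := by
    unfold Function.uncurry
    fun_prop
  rw [Measure.prod_restrict, ← IntegrableOn]
  exact (hcc.continuousOn.integrableOn_compact
    (isCompact_Icc.prod isCompact_Icc)).mono_set
      (Set.prod_mono Set.Ioc_subset_Icc_self Set.Ioc_subset_Icc_self)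

theorem av_lower (f : ℝ → ℝ) (hf : Continuous f) (hf0 : ∀ x, 0 ≤ f x) (A B : ℝ) (hAB : A + 1 ≤ B) :
    (1 / 2) * ∫ v in A..B, f v ≤ ∫ v in A..B, ∫ a in (-1 : ℝ)..1, f (v + a) := by
  rw [swap_av f hf A B (by linarith)]
  have hi : ∀ u v : ℝ, IntervalIntegrable f volume u v := fun u v => hf.intervalIntegrable _ _
  have e : ∀ a : ℝ, ∫ v in A..B, f (v + a) = ∫ v in (A + a)..(B + a), f v := by
    intro a
    exact intervalIntegral.integral_comp_add_right f a
  have hc : Continuous (fun a : ℝ => ∫ v in A..B, f (v + a)) := by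
    apply intervalIntegral.continuous_parametric_intervalIntegral_of_continuous'
    unfold Function.uncurry
    fun_prop
  have h0 : ∀ a : ℝ, 0 ≤ ∫ v in A..B, f (v + a) := by
    intro a
    apply intervalIntegral.integral_nonneg (by linarith)
    intro u _
    exact hf0 _
  have hci : ∀ u v : ℝ, IntervalIntegrable (fun a : ℝ => ∫ v in A..B, f (v + a)) volume u v :=
    fun u v => hc.intervalIntegrable _ _
  have h1 : ∫ a in (-(1 / 2) : ℝ)..0, ∫ v in A..B, f (v + a) ≥
      (1 / 2) * ∫ v in A..(B - 1 / 2), f v := by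
    have h2 : ∫ a in (-(1 / 2) : ℝ)..0, ∫ v in A..(B - 1 / 2), f v ≤
        ∫ a in (-(1 / 2) : ℝ)..0, ∫ v in A..B, f (v + a) := by
      apply intervalIntegral.integral_mono_on (by norm_num) (by simp) (hci _ _)
      intro a ha
      rw [e a]
      apply intervalIntegral.integral_mono_interval (by linarith [ha.2]) (by linarith)
        (by linarith [ha.1]) (Eventually.of_forall hf0) (hi _ _)
    rw [intervalIntegral.integral_const, smul_eq_mul] at h2
    norm_num at h2 ⊢
    linarith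
  have h3 : ∫ a in (0 : ℝ)..(1 / 2), ∫ v in A..B, f (v + a) ≥
      (1 / 2) * ∫ v in (A + 1 / 2)..B, f v := by
    have h2 : ∫ a in (0 : ℝ)..(1 / 2), ∫ v in (A + 1 / 2)..B, f v ≤
        ∫ a in (0 : ℝ)..(1 / 2), ∫ v in A..B, f (v + a) := by
      apply intervalIntegral.integral_mono_on (by norm_num) (by simp) (hci _ _)
      intro a ha
      rw [e a]
      apply intervalIntegral.integral_mono_interval (by linarith [ha.2]) (by linarith)
        (by linarith [ha.1]) (Eventually.of_forall hf0) (hi _ _)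
    rw [intervalIntegral.integral_const, smul_eq_mul] at h2
    norm_num at h2 ⊢
    linarith
  have h4 : ∫ a in (-(1 / 2) : ℝ)..(1 / 2), ∫ v in A..B, f (v + a) ≤
      ∫ a in (-1 : ℝ)..1, ∫ v in A..B, f (v + a) := by
    apply intervalIntegral.integral_mono_interval (by norm_num) (by norm_num)
      (by norm_num) (Eventually.of_forall h0) (hci _ _)
  have h5 := intervalIntegral.integral_add_adjacent_intervals (hci (-(1 / 2)) 0) (hci 0 (1 / 2))
  have h6 : ∫ v in A..B, f v ≤ (∫ v in A..(B - 1 / 2), f v) + ∫ v in (A + 1 / 2)..B, f v := by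
    have h7 := intervalIntegral.integral_add_adjacent_intervals (hi A (A + 1 / 2)) (hi (A + 1 / 2) B)
    have h8 : ∫ v in A..(A + 1 / 2), f v ≤ ∫ v in A..(B - 1 / 2), f v := by
      apply intervalIntegral.integral_mono_interval le_rfl (by linarith)
        (by linarith) (Eventually.of_forall hf0) (hi _ _)
    linarith
  linarith

theorem W_lower (Z : Finset ℂ) (m : ℂ → ℝ) (hZ : ∀ s ∈ Z, 0 < s.re ∧ s.re < 1) (A B : ℝ)
    (hAB : A + 1 ≤ B) :
    ∫ v in A..B, ‖ES Z m v‖ ^ 2 ≤ 2 * Real.exp 2 * ∫ v in A..B, (PPair kW v Z m).re := by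
  have hE := (ES_cont Z m).norm.pow 2
  have h1 := av_lower (fun v => ‖ES Z m v‖ ^ 2) hE (fun x => by positivity) A B hAB
  have h2 : Real.exp (-2) * (∫ v in A..B, ∫ a in (-1 : ℝ)..1, ‖ES Z m (v + a)‖ ^ 2) ≤
      ∫ v in A..B, (PPair kW v Z m).re := by
    rw [← intervalIntegral.integral_const_mul]
    apply intervalIntegral.integral_mono_on (by linarith)
    · apply Continuous.intervalIntegrable
      apply Continuous.mul continuous_const
      apply intervalIntegral.continuous_parametric_intervalIntegral_of_continuous'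
      have := ES_cont Z m
      unfold Function.uncurry
      fun_prop
    · exact (PW_cont Z m).intervalIntegrable _ _
    · intro v _
      exact PW_lower v Z m hZ
  have h3 : Real.exp 2 * Real.exp (-2) = 1 := by
    rw [← Real.exp_add]
    norm_num
  obtain ⟨X, hX⟩ : ∃ X, X = ∫ v in A..B, ∫ a in (-1 : ℝ)..1, ‖ES Z m (v + a)‖ ^ 2 := ⟨_, rfl⟩
  rw [← hX] at h1 h2
  have h4 := mul_le_mul_of_nonneg_left h2 (Real.exp_pos 2).le
  rw [← mul_assoc, h3, one_mul] at h4
  linarith

end Pool.Agent.D0H44.FW
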